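import Pool.Agent.Lib.MP_1aae89_al.Chr

section
/-!
# Matrix representations whose commutant is scalar: averaging, orthogonality, equivalence
-/
set_option autoImplicit false

namespace Pool.Agent.Lib.MP_1aae89_al.BF

open Matrix Finset

/-- only the scalar matrices commute with all `r g` -/
def Sch {G : Type} [Group G] {n : ℕ} (r : G →* Matrix (Fin n) (Fin n) ℂ) : Prop :=
  ∀ T : Matrix (Fin n) (Fin n) ℂ, (∀ g, T * r g = r g * T) →
    ∃ c : ℂ, T = c • (1 : Matrix (Fin n) (Fin n) ℂ)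

theorem mul_inv_r {G : Type} [Group G] {n : ℕ} (r : G →* Matrix (Fin n) (Fin n) ℂ) (g : G) :
    r g * r g⁻¹ = 1 := by rw [← map_mul, mul_inv_cancel, map_one]

theorem inv_mul_r {G : Type} [Group G] {n : ℕ} (r : G →* Matrix (Fin n) (Fin n) ℂ) (g : G) :
    r g⁻¹ * r g = 1 := by rw [← map_mul, inv_mul_cancel, map_one]

section

variable {G : Type} [Group G] [Fintype G] {n m : ℕ}

/-- the average of `S` intertwines -/
theorem avg2 (s : G →* Matrix (Fin m) (Fin m) ℂ) (r : G →* Matrix (Fin n) (Fin n) ℂ)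
    (S : Matrix (Fin m) (Fin n) ℂ) (h : G) :
    s h * ∑ g, s g * S * r g⁻¹ = (∑ g, s g * S * r g⁻¹) * r h := by
  rw [Matrix.sum_mul, Matrix.mul_sum]
  refine Fintype.sum_equiv (Equiv.mulLeft h) _ _ fun g => ?_
  change s h * (s g * S * r g⁻¹) = s (h * g) * S * r (h * g)⁻¹ * r h
  rw [map_mul, _root_.mul_inv_rev, map_mul]
  simp only [Matrix.mul_assoc]
  rw [inv_mul_r, Matrix.mul_one]

theorem avg {r : G →* Matrix (Fin n) (Fin n) ℂ} (hr : Sch r) (hn : n ≠ 0)
    (S : Matrix (Fin n) (Fin n) ℂ) :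
    ∑ g, r g * S * r g⁻¹ =
      ((Fintype.card G : ℂ) * S.trace / n) • (1 : Matrix (Fin n) (Fin n) ℂ) := by
  obtain ⟨c, hc⟩ := hr (∑ g, r g * S * r g⁻¹) fun h => (avg2 r r S h).symm
  have ht := congrArg Matrix.trace hc
  have h1 : ∀ g ∈ univ, (r g * S * r g⁻¹).trace = S.trace := fun g _ => by
    rw [Matrix.trace_mul_comm, ← Matrix.mul_assoc, inv_mul_r, Matrix.one_mul]
  rw [trace_sum, sum_congr rfl h1, sum_const, card_univ, nsmul_eq_mul, trace_smul, trace_one,
    Fintype.card_fin, smul_eq_mul] at ht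
  have hn' : (n : ℂ) ≠ 0 := by exact_mod_cast hn
  rw [hc, ht, mul_div_assoc, div_self hn', mul_one]

/-- `(X E_{ji} Y)_{ji} = X_{jj} Y_{ii}` -/
theorem entry (X : Matrix (Fin m) (Fin m) ℂ) (Y : Matrix (Fin n) (Fin n) ℂ) (j : Fin m) (i : Fin n) :
    (X * Matrix.single j i (1 : ℂ) * Y) j i = X j j * Y i i := by
  rw [Matrix.mul_apply, Finset.sum_eq_single i]
  · rw [Matrix.mul_single_apply_same, mul_one]
  · intro k _ hk
    rw [Matrix.mul_single_apply_of_ne (hbj := hk), zero_mul]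
  · intro h; exact absurd (mem_univ _) h

theorem orth {r : G →* Matrix (Fin n) (Fin n) ℂ} (hr : Sch r) (hn : n ≠ 0)
    (A B : Matrix (Fin n) (Fin n) ℂ) :
    ∑ g, (A * r g).trace * (r g⁻¹ * B).trace = (Fintype.card G : ℂ) / n * (A * B).trace := by
  have h1 : ∀ g ∈ univ, (A * r g).trace * (r g⁻¹ * B).trace =
      ∑ j, ∑ i, (A * (r g * Matrix.single j i (1 : ℂ) * r g⁻¹) * B : Matrix (Fin n) (Fin n) ℂ) j i := by
    intro g _
    have h2 : ∀ j i : Fin n, (A * (r g * Matrix.single j i (1 : ℂ) * r g⁻¹) * B : Matrix (Fin n) (Fin n) ℂ) j i =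
        (A * r g) j j * (r g⁻¹ * B) i i := by
      intro j i
      rw [← entry (A * r g) (r g⁻¹ * B) j i]
      simp only [Matrix.mul_assoc]
    simp only [h2]
    rw [Matrix.trace, Matrix.trace, Finset.sum_mul_sum]
    rfl
  rw [sum_congr rfl h1, sum_comm]
  have h3 : ∀ j ∈ univ, ∑ g, ∑ i, (A * (r g * Matrix.single j i (1 : ℂ) * r g⁻¹) * B : Matrix (Fin n) (Fin n) ℂ) j i =
      (Fintype.card G : ℂ) / n * (A * B) j j := by
    intro j _
    rw [sum_comm]
    have h4 : ∀ i ∈ univ, ∑ g, (A * (r g * Matrix.single j i (1 : ℂ) * r g⁻¹) * B : Matrix (Fin n) (Fin n) ℂ) j i =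
        (Fintype.card G : ℂ) * (Matrix.single j i (1 : ℂ)).trace / n * (A * B) j i := by
      intro i _
      have h5 : ∑ g, (A * (r g * Matrix.single j i (1 : ℂ) * r g⁻¹) * B : Matrix (Fin n) (Fin n) ℂ) j i =
          (A * (∑ g, r g * Matrix.single j i (1 : ℂ) * r g⁻¹) * B : Matrix (Fin n) (Fin n) ℂ) j i := by
        rw [Matrix.mul_sum, Matrix.sum_mul, Matrix.sum_apply]
      rw [h5, avg hr hn, Matrix.mul_smul, Matrix.mul_one, Matrix.smul_mul, Matrix.smul_apply,
        smul_eq_mul]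
    rw [sum_congr rfl h4, Finset.sum_eq_single j]
    · rw [Matrix.trace_single_eq_same, mul_one]
    · intro k _ hk
      rw [Matrix.trace_single_eq_of_ne _ _ _ hk.symm, mul_zero, zero_div, zero_mul]
    · intro h; exact absurd (mem_univ _) h
  rw [sum_congr rfl h3, ← mul_sum]
  rfl

/-- two representations with the same character, one with scalar commutant, are equivalent -/
theorem equiv_of_trace {r s : G →* Matrix (Fin n) (Fin n) ℂ} (hr : Sch r) (hn : n ≠ 0)
    (h : ∀ g, (s g).trace = (r g).trace) :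
    ∃ B B' : Matrix (Fin n) (Fin n) ℂ, B' * B = 1 ∧ B * B' = 1 ∧ ∀ g, s g * B = B * r g := by
  have hn' : (n : ℂ) ≠ 0 := by exact_mod_cast hn
  have hG : (Fintype.card G : ℂ) ≠ 0 := by exact_mod_cast Fintype.card_ne_zero
  -- some average is not zero
  have h1 : ∃ j i, ∑ g, s g * Matrix.single j i (1 : ℂ) * r g⁻¹ ≠ 0 := by
    by_contra hall
    push Not at hall
    have h2 := orth hr hn 1 1
    rw [Matrix.one_mul, trace_one, Fintype.card_fin, div_mul_cancel₀ _ hn'] at h2
    apply hG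
    rw [← h2]
    have h3 : ∀ g ∈ univ, (1 * r g).trace * (r g⁻¹ * 1).trace =
        ∑ j, ∑ i, (s g * Matrix.single j i (1 : ℂ) * r g⁻¹ : Matrix (Fin n) (Fin n) ℂ) j i := by
      intro g _
      simp only [entry]
      rw [Matrix.one_mul, Matrix.mul_one, ← h g, Matrix.trace, Matrix.trace, Finset.sum_mul_sum]
      rfl
    rw [sum_congr rfl h3, sum_comm]
    refine sum_eq_zero fun j _ => ?_
    rw [sum_comm]
    refine sum_eq_zero fun i _ => ?_
    have h4 := congrFun (congrFun (hall j i) j) i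
    rw [Matrix.sum_apply] at h4
    exact h4
  obtain ⟨j, i, hT⟩ := h1
  set T := ∑ g, s g * Matrix.single j i (1 : ℂ) * r g⁻¹ with hTd
  have hTi : ∀ g, s g * T = T * r g := fun g => avg2 s r _ g
  -- an entry of `T`
  have h2 : ∃ a b, T a b ≠ 0 := by
    by_contra hall
    push Not at hall
    exact hT (Matrix.ext hall)
  obtain ⟨a, b, hab⟩ := h2
  -- the average in the other direction
  set T' := ∑ g, r g * Matrix.single b a (1 : ℂ) * s g⁻¹ with hT'd
  have h3 : T' * T = ((Fintype.card G : ℂ) * T a b / n) • (1 : Matrix (Fin n) (Fin n) ℂ) := by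
    have h4 : T' * T = ∑ g, r g * (Matrix.single b a (1 : ℂ) * T) * r g⁻¹ := by
      rw [hT'd, Finset.sum_mul]
      refine sum_congr rfl fun g _ => ?_
      rw [Matrix.mul_assoc, hTi]
      simp only [Matrix.mul_assoc]
    rw [h4, avg hr hn]
    congr 3
    rw [Matrix.trace, Finset.sum_eq_single b]
    · rw [Matrix.diag_apply, Matrix.single_mul_apply_same, one_mul]
    · intro k _ hk
      rw [Matrix.diag_apply, Matrix.single_mul_apply_of_ne (h := hk)]
    · intro h; exact absurd (mem_univ _) h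
  set c := (Fintype.card G : ℂ) * T a b / n with hc
  have hc0 : c ≠ 0 := div_ne_zero (mul_ne_zero hG hab) hn'
  have h4 : (c⁻¹ • T') * T = 1 := by
    rw [Matrix.smul_mul, h3, smul_smul, inv_mul_cancel₀ hc0, one_smul]
  exact ⟨T, c⁻¹ • T', h4, mul_eq_one_comm.1 h4, hTi⟩

end

/-- Galois conjugation of the trace of a matrix of finite order -/
theorem gal_trace {n N κ : ℕ} (hN : N ≠ 0) (σ : ℂ →+* ℂ) (hσ : ∀ ξ : ℂ, ξ ^ N = 1 → σ ξ = ξ ^ κ)
    (A : Matrix (Fin n) (Fin n) ℂ) (hA : A ^ N = 1) : σ A.trace = (A ^ κ).trace := by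
  let u : (Matrix (Fin n) (Fin n) ℂ)ˣ := Units.ofPowEqOne A N hA hN
  have hu : (u : Matrix (Fin n) (Fin n) ℂ) = A := rfl
  have h1 : IsCharacter fun g : (Matrix (Fin n) (Fin n) ℂ)ˣ =>
      (g : Matrix (Fin n) (Fin n) ℂ).trace := ⟨n, Units.coeHom _, fun g => rfl⟩
  have hx : u ^ N = 1 := by
    apply Units.ext
    rw [Units.val_pow_eq_pow_val, hu, hA, Units.val_one]
  obtain ⟨P, hP⟩ := h1.eval_pow hN hx
  have e1 := hP 1
  have e2 := hP κ
  rw [Units.val_pow_eq_pow_val, hu] at e1 e2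
  rw [pow_one, pow_one] at e1
  rw [e1, e2]
  have hz : zeta N ^ N = 1 := (zeta_prim hN).pow_eq_one
  rw [← hσ _ hz]
  have h2 : σ (Polynomial.aeval (zeta N) P) = Polynomial.aeval (σ (zeta N)) P := by
    have h3 := Polynomial.aeval_algHom_apply (σ.toRatAlgHom) (zeta N) P
    exact h3.symm
  exact h2

/-- a factorisation of an idempotent matrix -/
theorem idem_factor {n : ℕ} (E : Matrix (Fin n) (Fin n) ℂ) (hE : E * E = E) :
    ∃ (k : ℕ) (J : Matrix (Fin n) (Fin k) ℂ) (J' : Matrix (Fin k) (Fin n) ℂ),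
      J * J' = E ∧ J' * J = 1 := by
  set U := LinearMap.range (Matrix.toLin' E) with hU
  set k := Module.finrank ℂ U with hk
  let b : Module.Basis (Fin k) ℂ U := Module.finBasis ℂ U
  let f : (Fin k → ℂ) →ₗ[ℂ] (Fin n → ℂ) := U.subtype ∘ₗ b.equivFun.symm.toLinearMap
  let g : (Fin n → ℂ) →ₗ[ℂ] (Fin k → ℂ) := b.equivFun.toLinearMap ∘ₗ (Matrix.toLin' E).rangeRestrict
  have h1 : f ∘ₗ g = Matrix.toLin' E := by
    refine LinearMap.ext fun x => ?_
    simp [f, g]
  have h2 : g ∘ₗ f = LinearMap.id := by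
    refine LinearMap.ext fun x => ?_
    have h3 : (Matrix.toLin' E).rangeRestrict ((b.equivFun.symm x : U) : Fin n → ℂ) =
        b.equivFun.symm x := by
      apply Subtype.ext
      obtain ⟨y, hy⟩ := (b.equivFun.symm x).2
      change Matrix.toLin' E ((b.equivFun.symm x : U) : Fin n → ℂ) = _
      rw [← hy, ← LinearMap.comp_apply, ← Matrix.toLin'_mul, hE]
    change b.equivFun ((Matrix.toLin' E).rangeRestrict ((b.equivFun.symm x : U) : Fin n → ℂ)) = x
    rw [h3, LinearEquiv.apply_symm_apply]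
  refine ⟨k, LinearMap.toMatrix' f, LinearMap.toMatrix' g, ?_, ?_⟩
  · rw [← LinearMap.toMatrix'_comp, h1, LinearMap.toMatrix'_toLin']
  · rw [← LinearMap.toMatrix'_comp, h2, LinearMap.toMatrix'_id]

end Pool.Agent.Lib.MP_1aae89_al.BF
end

section
/-!
# One step: from a normal subgroup `L` to an element `y` of bounded order modulo `L`
-/
set_option autoImplicit false

namespace Pool.Agent.Lib.MP_1aae89_al.BF

open Matrix Finset
open scoped Kronecker

/-- numerical data: `σ` raises the `N`-th roots of unity to the power `κ`, `κ - 1` is divisible by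
the part of `N` prime to `p`, and `κ` has `p`-power order modulo `N` -/
structure Gd (p N κ : ℕ) (σ : ℂ →+* ℂ) : Prop where
  pp : p.Prime
  hN : N ≠ 0
  one : 1 ≤ κ
  hσ : ∀ ξ : ℂ, ξ ^ N = 1 → σ ξ = ξ ^ κ
  ha : ∃ a, N ∣ (κ - 1) * p ^ a
  hj : ∃ j, κ ^ p ^ j ≡ 1 [MOD N]

theorem powmod {R : Type} [Monoid R] {A : R} {N : ℕ} (h : A ^ N = 1) (k : ℕ) :
    A ^ (k % N) = A ^ k := by
  conv_rhs => rw [← Nat.div_add_mod k N, pow_add, pow_mul, h, one_pow, one_mul]

theorem kron_pow {e n : ℕ} (z : Matrix (Fin e) (Fin e) ℂ) (X : Matrix (Fin n) (Fin n) ℂ) (k : ℕ) :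
    (z ⊗ₖ X) ^ k = (z ^ k) ⊗ₖ (X ^ k) := by
  induction k with
  | zero => rw [pow_zero, pow_zero, pow_zero, one_kronecker_one]
  | succ k ih => rw [pow_succ, ih, ← mul_kronecker_mul, ← pow_succ, ← pow_succ]

theorem conj_pow' {n : ℕ} {B B' : Matrix (Fin n) (Fin n) ℂ} (h1 : B' * B = 1) (h : B * B' = 1)
    (M : Matrix (Fin n) (Fin n) ℂ) (k : ℕ) : (B' * M * B) ^ k = B' * M ^ k * B := by
  induction k with
  | zero => rw [pow_zero, pow_zero, Matrix.mul_one, h1]
  | succ k ih =>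
    rw [pow_succ, ih, pow_succ]
    simp only [Matrix.mul_assoc]
    rw [← Matrix.mul_assoc B B', h, Matrix.one_mul]

/-- the blocks of a matrix -/
def blk {e n : ℕ} (Y : Matrix (Fin e × Fin n) (Fin e × Fin n) ℂ) (i j : Fin e) :
    Matrix (Fin n) (Fin n) ℂ := fun a b => Y (i, a) (j, b)

theorem blk_mul {e n : ℕ} (Y Z : Matrix (Fin e × Fin n) (Fin e × Fin n) ℂ) (i j : Fin e) :
    blk (Y * Z) i j = ∑ k, blk Y i k * blk Z k j := by
  ext a b
  rw [Matrix.sum_apply]
  unfold blk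
  rw [Matrix.mul_apply, Fintype.sum_prod_type]
  rfl

theorem blk_kron {e n : ℕ} (z : Matrix (Fin e) (Fin e) ℂ) (X : Matrix (Fin n) (Fin n) ℂ)
    (i j : Fin e) : blk (z ⊗ₖ X) i j = z i j • X := by
  ext a b
  rfl

theorem blk_ext {e n : ℕ} {Y Z : Matrix (Fin e × Fin n) (Fin e × Fin n) ℂ}
    (h : ∀ i j, blk Y i j = blk Z i j) : Y = Z := by
  ext ⟨i, a⟩ ⟨j, b⟩
  exact congrFun (congrFun (h i j) a) b

theorem blk_mul_one {e n : ℕ} (Y : Matrix (Fin e × Fin n) (Fin e × Fin n) ℂ)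
    (M : Matrix (Fin n) (Fin n) ℂ) (i j : Fin e) :
    blk (Y * ((1 : Matrix (Fin e) (Fin e) ℂ) ⊗ₖ M)) i j = blk Y i j * M := by
  rw [blk_mul, Finset.sum_eq_single j]
  · rw [blk_kron, Matrix.one_apply_eq, one_smul]
  · intro k _ hk
    rw [blk_kron, Matrix.one_apply_ne hk, zero_smul, Matrix.mul_zero]
  · intro h; exact absurd (mem_univ _) h

theorem blk_one_mul {e n : ℕ} (Y : Matrix (Fin e × Fin n) (Fin e × Fin n) ℂ)
    (M : Matrix (Fin n) (Fin n) ℂ) (i j : Fin e) :
    blk (((1 : Matrix (Fin e) (Fin e) ℂ) ⊗ₖ M) * Y) i j = M * blk Y i j := by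
  rw [blk_mul, Finset.sum_eq_single i]
  · rw [blk_kron, Matrix.one_apply_eq, one_smul]
  · intro k _ hk
    rw [blk_kron, Matrix.one_apply_ne hk.symm, zero_smul, Matrix.zero_mul]
  · intro h; exact absurd (mem_univ _) h

section

variable {H : Type} [Group H] {L : Subgroup H} [L.Normal] {e n : ℕ}

theorem decomp (he : e ≠ 0) (hn : n ≠ 0)
    (ρ : H →* Matrix (Fin e × Fin n) (Fin e × Fin n) ℂ)
    {r : L →* Matrix (Fin n) (Fin n) ℂ} (hr : Sch r)
    (hρ : ∀ l : L, ρ l = (1 : Matrix (Fin e) (Fin e) ℂ) ⊗ₖ r l) {o : ℕ} (ho : o ≠ 0) (y : H)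
    (hy : y ^ o ∈ L) :
    ∃ (z : Matrix (Fin e) (Fin e) ℂ) (X X' : Matrix (Fin n) (Fin n) ℂ), X' * X = 1 ∧ X * X' = 1 ∧
      ρ y = z ⊗ₖ X ∧ z ^ o = 1 ∧ X ^ o = r ⟨y ^ o, hy⟩ ∧
      ∀ l, X * r l = r (MulAut.conjNormal y l) * X := by
  have i0 : Fin e := ⟨0, Nat.pos_of_ne_zero he⟩
  have a0 : Fin n := ⟨0, Nat.pos_of_ne_zero hn⟩
  have hne1 : (1 : Matrix (Fin n) (Fin n) ℂ) ≠ 0 := by
    intro h
    have := congrFun (congrFun h a0) a0
    rw [Matrix.one_apply_eq, Matrix.zero_apply] at this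
    exact one_ne_zero this
  -- the blocks of `ρ y` and of `ρ y⁻¹`
  have hY : ∀ (l : L) i j, blk (ρ y) i j * r l = r (MulAut.conjNormal y l) * blk (ρ y) i j := by
    intro l i j
    rw [← blk_mul_one, ← blk_one_mul, ← hρ, ← hρ, ← map_mul, ← map_mul]
    congr 2
    rw [MulAut.conjNormal_apply]
    group
  have hY' : ∀ (l : L) i j, blk (ρ y⁻¹) i j * r (MulAut.conjNormal y l) = r l * blk (ρ y⁻¹) i j := by
    intro l i j
    rw [← blk_mul_one, ← blk_one_mul, ← hρ, ← hρ, ← map_mul, ← map_mul]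
    congr 2
    rw [MulAut.conjNormal_apply]
    group
  have h1 : ∑ j, blk (ρ y⁻¹) i0 j * blk (ρ y) j i0 = 1 := by
    rw [← blk_mul, ← map_mul, inv_mul_cancel, map_one]
    have h2 : (1 : Matrix (Fin e × Fin n) (Fin e × Fin n) ℂ) =
        (1 : Matrix (Fin e) (Fin e) ℂ) ⊗ₖ (1 : Matrix (Fin n) (Fin n) ℂ) := one_kronecker_one.symm
    rw [h2, blk_kron, Matrix.one_apply_eq, one_smul]
  obtain ⟨j, -, hj⟩ : ∃ j ∈ (univ : Finset (Fin e)), blk (ρ y⁻¹) i0 j * blk (ρ y) j i0 ≠ 0 := by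
    by_contra hall
    push Not at hall
    rw [sum_eq_zero hall] at h1
    exact hne1 h1.symm
  obtain ⟨c, hc⟩ := hr (blk (ρ y⁻¹) i0 j * blk (ρ y) j i0) fun l => by
    rw [Matrix.mul_assoc, hY, ← Matrix.mul_assoc, hY', Matrix.mul_assoc]
  have hc0 : c ≠ 0 := by
    rintro rfl
    rw [zero_smul] at hc
    exact hj hc
  set X := blk (ρ y) j i0 with hX
  set X' := c⁻¹ • blk (ρ y⁻¹) i0 j with hX'
  have e1 : X' * X = 1 := by
    rw [hX', Matrix.smul_mul, hc, smul_smul, inv_mul_cancel₀ hc0, one_smul]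
  have e2 : X * X' = 1 := mul_eq_one_comm.1 e1
  have hXr : ∀ l, X * r l = r (MulAut.conjNormal y l) * X := fun l => hY l j i0
  have hX'r : ∀ l, X' * r (MulAut.conjNormal y l) = r l * X' := fun l => by
    rw [hX', Matrix.smul_mul, Matrix.mul_smul, hY']
  have h3 : ∀ i k, ∃ w : ℂ, blk (ρ y) i k = w • X := by
    intro i k
    obtain ⟨w, hw⟩ := hr (X' * blk (ρ y) i k) fun l => by
      rw [Matrix.mul_assoc, hY, ← Matrix.mul_assoc, hX'r, Matrix.mul_assoc]
    refine ⟨w, ?_⟩
    calc blk (ρ y) i k = X * (X' * blk (ρ y) i k) := by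
          rw [← Matrix.mul_assoc, e2, Matrix.one_mul]
      _ = w • X := by rw [hw, Matrix.mul_smul, Matrix.mul_one]
  choose w hw using h3
  set z : Matrix (Fin e) (Fin e) ℂ := Matrix.of w with hz
  have h4 : ρ y = z ⊗ₖ X := blk_ext fun i k => by rw [hw, blk_kron]; rfl
  -- the `o`-th powers
  have h5 : ∀ i k, (z ^ o) i k • X ^ o = (1 : Matrix (Fin e) (Fin e) ℂ) i k • r ⟨y ^ o, hy⟩ := by
    intro i k
    rw [← blk_kron, ← blk_kron, ← kron_pow, ← h4, ← map_pow, ← hρ]
  have e3 : X' ^ o * X ^ o = 1 := pow_mul_pow_eq_one o e1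
  have hXo : X ^ o ≠ 0 := by
    intro h
    rw [h, Matrix.mul_zero] at e3
    exact hne1 e3.symm
  have hR : r ⟨y ^ o, hy⟩ ≠ 0 := by
    intro h
    have h6 := mul_inv_r r ⟨y ^ o, hy⟩
    rw [h, Matrix.zero_mul] at h6
    exact hne1 h6.symm
  set d := (z ^ o) i0 i0 with hd
  have h6 : d • X ^ o = r ⟨y ^ o, hy⟩ := by rw [hd, h5, Matrix.one_apply_eq, one_smul]
  have hd0 : d ≠ 0 := by
    intro h
    rw [h, zero_smul] at h6
    exact hR h6.symm
  have h7 : z ^ o = d • (1 : Matrix (Fin e) (Fin e) ℂ) := by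
    ext i k
    have h8 := h5 i k
    rw [← h6, smul_smul, ← sub_eq_zero, ← sub_smul, smul_eq_zero] at h8
    rcases h8 with h8 | h8
    · rw [sub_eq_zero] at h8
      rw [h8, Matrix.smul_apply, smul_eq_mul, mul_comm]
    · exact absurd h8 hXo
  obtain ⟨s, hs⟩ := IsAlgClosed.exists_pow_nat_eq d (Nat.pos_of_ne_zero ho)
  have hs0 : s ≠ 0 := by
    rintro rfl
    rw [zero_pow ho] at hs
    exact hd0 hs.symm
  refine ⟨s⁻¹ • z, s • X, s⁻¹ • X', ?_, ?_, ?_, ?_, ?_, ?_⟩
  · rw [Matrix.smul_mul, Matrix.mul_smul, smul_smul, inv_mul_cancel₀ hs0, one_smul, e1]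
  · rw [Matrix.smul_mul, Matrix.mul_smul, smul_smul, mul_inv_cancel₀ hs0, one_smul, e2]
  · rw [smul_kronecker, kronecker_smul, smul_smul, inv_mul_cancel₀ hs0, one_smul, h4]
  · rw [smul_pow, h7, inv_pow, hs, smul_smul, inv_mul_cancel₀ hd0, one_smul]
  · rw [smul_pow, hs, h6]
  · intro l
    rw [Matrix.smul_mul, Matrix.mul_smul, hXr]

end

section

variable {p N κ : ℕ} {σ : ℂ →+* ℂ} {H : Type} [Group H] [Fintype H] {L : Subgroup H} [L.Normal]
  {e n : ℕ}

/-- the exponents `κ` and `κ ^ j` -/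
theorem gal_iter (hG : Gd p N κ σ) {n : ℕ} (A : Matrix (Fin n) (Fin n) ℂ) (hA : A ^ N = 1) (m : ℕ) :
    σ^[m] A.trace = (A ^ κ ^ m).trace := by
  induction m with
  | zero => rw [pow_zero, pow_one]; rfl
  | succ m ih =>
    rw [Function.iterate_succ_apply', ih, pow_succ, pow_mul]
    refine gal_trace hG.hN σ hG.hσ _ ?_
    rw [← pow_mul, mul_comm, pow_mul, hA, one_pow]

theorem estep (hG : Gd p N κ σ) (he : ¬ p ∣ e) (hn : ¬ p ∣ n)
    (ρ : H →* Matrix (Fin e × Fin n) (Fin e × Fin n) ℂ)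
    {r : L →* Matrix (Fin n) (Fin n) ℂ} (hr : Sch r)
    (hρ : ∀ l : L, ρ l = (1 : Matrix (Fin e) (Fin e) ℂ) ⊗ₖ r l)
    (hdet : ∀ h, σ (ρ h).det = (ρ h).det) (hL : ∀ l : L, σ (r l).trace = (r l).trace)
    {o : ℕ} (ho : o ∣ κ - 1) (hoN : Fintype.card H * o ∣ N) (y : H) (hy : y ^ o ∈ L) :
    σ (ρ y).trace = (ρ y).trace := by
  classical
  have he0 : e ≠ 0 := by rintro rfl; exact he (dvd_zero _)
  have hn0 : n ≠ 0 := by rintro rfl; exact hn (dvd_zero _)
  have hn' : (n : ℂ) ≠ 0 := by exact_mod_cast hn0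
  have hpe : ∀ a, (p ^ a).Coprime e := fun a =>
    Nat.Coprime.pow_left a ((Nat.Prime.coprime_iff_not_dvd hG.pp).2 he)
  have hpn : ∀ a, (p ^ a).Coprime n := fun a =>
    Nat.Coprime.pow_left a ((Nat.Prime.coprime_iff_not_dvd hG.pp).2 hn)
  have ho0 : o ≠ 0 := by
    rintro rfl
    rw [mul_zero] at hoN
    exact hG.hN (Nat.eq_zero_of_zero_dvd hoN)
  have hoN' : o ∣ N := (dvd_mul_left _ _).trans hoN
  have hHN : Fintype.card H ∣ N := (dvd_mul_right _ _).trans hoN
  have i0 : Fin e := ⟨0, Nat.pos_of_ne_zero he0⟩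
  have a0 : Fin n := ⟨0, Nat.pos_of_ne_zero hn0⟩
  obtain ⟨a, ha⟩ := hG.ha
  obtain ⟨j, hj⟩ := hG.hj
  obtain ⟨z, X, X', hX'X, hXX', hρy, hzo, hXo, hXr⟩ := decomp he0 hn0 ρ hr hρ ho0 y hy
  -- finite order
  have hzN : z ^ N = 1 := by
    obtain ⟨k, hk⟩ := hoN'
    rw [hk, pow_mul, hzo, one_pow]
  have hXrN : ∀ l : L, (X * r l) ^ N = 1 := by
    intro l
    have h1 : ρ (y * l) = z ⊗ₖ (X * r l) := by
      rw [map_mul, hρy, hρ, ← mul_kronecker_mul, Matrix.mul_one]
    have h2 : (ρ (y * l)) ^ N = 1 := by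
      obtain ⟨k, hk⟩ := hHN
      rw [← map_pow, hk, pow_mul, pow_card_eq_one, one_pow, map_one]
    rw [h1, kron_pow, hzN] at h2
    have h3 := congrArg (fun M => blk M i0 i0) h2
    have h4 : (1 : Matrix (Fin e × Fin n) (Fin e × Fin n) ℂ) =
        (1 : Matrix (Fin e) (Fin e) ℂ) ⊗ₖ (1 : Matrix (Fin n) (Fin n) ℂ) := one_kronecker_one.symm
    simp only [h4, blk_kron, Matrix.one_apply_eq, one_smul] at h3
    exact h3
  have hXN : X ^ N = 1 := by
    have := hXrN 1
    rwa [map_one, Matrix.mul_one] at this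
  -- the Galois conjugate representation of `L`
  let s : L →* Matrix (Fin n) (Fin n) ℂ :=
    ((σ.mapMatrix : Matrix (Fin n) (Fin n) ℂ →+* Matrix (Fin n) (Fin n) ℂ).toMonoidHom).comp r
  have hs : ∀ l, s l = (σ.mapMatrix : Matrix (Fin n) (Fin n) ℂ →+* Matrix (Fin n) (Fin n) ℂ) (r l) :=
    fun l => rfl
  have htr : ∀ M : Matrix (Fin n) (Fin n) ℂ,
      ((σ.mapMatrix : Matrix (Fin n) (Fin n) ℂ →+* Matrix (Fin n) (Fin n) ℂ) M).trace = σ M.trace := by
    intro M
    rw [RingHom.mapMatrix_apply, Matrix.trace, Matrix.trace, map_sum]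
    rfl
  obtain ⟨B, B', hB'B, hBB', hB⟩ := equiv_of_trace hr hn0 (s := s) fun l => by
    rw [hs, htr, hL]
  have hB' : ∀ l, B' * s l = r l * B' := by
    intro l
    calc B' * s l = B' * (s l * B) * B' := by
          rw [Matrix.mul_assoc, Matrix.mul_assoc, hBB', Matrix.mul_one]
      _ = r l * B' := by rw [hB, ← Matrix.mul_assoc, hB'B, Matrix.one_mul]
  set M := (σ.mapMatrix : Matrix (Fin n) (Fin n) ℂ →+* Matrix (Fin n) (Fin n) ℂ) X with hM
  have hMs : ∀ l, M * s l = s (MulAut.conjNormal y l) * M := by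
    intro l
    rw [hs, hs, hM, ← map_mul, ← map_mul, hXr]
  have hX'r : ∀ l, X' * r (MulAut.conjNormal y l) = r l * X' := by
    intro l
    calc X' * r (MulAut.conjNormal y l) = X' * (r (MulAut.conjNormal y l) * X) * X' := by
          rw [Matrix.mul_assoc, Matrix.mul_assoc, hXX', Matrix.mul_one]
      _ = r l * X' := by rw [← hXr, ← Matrix.mul_assoc, hX'X, Matrix.one_mul]
  obtain ⟨c, hc⟩ := hr (X' * (B' * M * B)) fun l => by
    calc X' * (B' * M * B) * r l = X' * B' * M * (B * r l) := by simp only [Matrix.mul_assoc]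
      _ = X' * B' * (M * s l) * B := by rw [← hB]; simp only [Matrix.mul_assoc]
      _ = X' * (B' * s (MulAut.conjNormal y l)) * M * B := by
          rw [hMs]; simp only [Matrix.mul_assoc]
      _ = (X' * r (MulAut.conjNormal y l)) * B' * M * B := by
          rw [hB']; simp only [Matrix.mul_assoc]
      _ = r l * (X' * (B' * M * B)) := by rw [hX'r]; simp only [Matrix.mul_assoc]
  have hcX : B' * M * B = c • X := by
    calc B' * M * B = X * (X' * (B' * M * B)) := by
          rw [← Matrix.mul_assoc, hXX', Matrix.one_mul]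
      _ = c • X := by rw [hc, Matrix.mul_smul, Matrix.mul_one]
  -- the traces
  have ht : ∀ l, σ (X * r l).trace = c * (X * r l).trace := by
    intro l
    have h1 : M * s l = B * (B' * M * B * r l) * B' := by
      rw [Matrix.mul_assoc (B' * M), ← hB]
      calc M * s l = (B * B') * M * s l * (B * B') := by rw [hBB', Matrix.one_mul, Matrix.mul_one]
        _ = _ := by simp only [Matrix.mul_assoc]
    rw [← htr, map_mul, ← hs, ← hM, h1, Matrix.trace_mul_comm, ← Matrix.mul_assoc, hB'B,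
      Matrix.one_mul, hcX, Matrix.smul_mul, Matrix.trace_smul, smul_eq_mul]
  -- the determinants
  have hdX0 : X.det ≠ 0 := by
    intro h
    have := congrArg Matrix.det hX'X
    rw [Matrix.det_mul, h, mul_zero, Matrix.det_one] at this
    exact zero_ne_one this
  have hdz0 : z.det ≠ 0 := by
    intro h
    have := congrArg Matrix.det hzo
    rw [Matrix.det_pow, h, zero_pow ho0, Matrix.det_one] at this
    exact zero_ne_one this
  have hdX : σ X.det = c ^ n * X.det := by
    have h1 : M.det = c ^ n * X.det := by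
      have h2 := congrArg Matrix.det hcX
      rw [Matrix.det_mul, Matrix.det_mul, Matrix.det_smul, Fintype.card_fin] at h2
      have h3 : B'.det * B.det = 1 := by rw [← Matrix.det_mul, hB'B, Matrix.det_one]
      rw [← h2]
      linear_combination (-M.det) * h3
    rw [← h1, hM]
    exact RingHom.map_det σ X
  have hdXN : X.det ^ N = 1 := by rw [← Matrix.det_pow, hXN, Matrix.det_one]
  have hκ : κ = (κ - 1) + 1 := by have := hG.one; omega
  have hdz : σ z.det = z.det := by
    rw [hG.hσ _ (by rw [← Matrix.det_pow, hzN, Matrix.det_one])]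
    obtain ⟨k, hk⟩ := ho
    rw [hκ, hk, pow_succ, pow_mul, ← Matrix.det_pow, hzo, Matrix.det_one, one_pow, one_mul]
  have h1 : (c ^ n) ^ e = 1 := by
    have h2 := hdet y
    rw [hρy, Matrix.det_kronecker, Fintype.card_fin, Fintype.card_fin, map_mul, map_pow, map_pow,
      hdz, hdX] at h2
    have h3 := mul_left_cancel₀ (pow_ne_zero n hdz0) h2
    rw [mul_pow] at h3
    exact mul_right_cancel₀ (pow_ne_zero e hdX0) (h3.trans (one_mul _).symm)
  have h2 : (c ^ n) ^ p ^ a = 1 := by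
    have h3 : c ^ n = X.det ^ (κ - 1) := by
      have h4 := hdX
      rw [hG.hσ _ hdXN] at h4
      apply mul_right_cancel₀ hdX0
      rw [← h4, ← pow_succ, ← hκ]
    obtain ⟨k, hk⟩ := ha
    rw [h3, ← pow_mul, hk, pow_mul, hdXN, one_pow]
  have hcn : c ^ n = 1 := by
    have h3 := pow_gcd_eq_one.2 ⟨h2, h1⟩
    rwa [(hpe a).gcd_eq_one, pow_one] at h3
  -- `c` is fixed by `σ`
  have hne1 : (1 : Matrix (Fin n) (Fin n) ℂ) ≠ 0 := by
    intro h
    have := congrFun (congrFun h a0) a0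
    rw [Matrix.one_apply_eq, Matrix.zero_apply] at this
    exact one_ne_zero this
  have hcN : c ^ N = 1 := by
    have h3 : (c • X) ^ N = 1 := by
      rw [← hcX, conj_pow' hB'B hBB', hM, ← map_pow, hXN, map_one, Matrix.mul_one, hB'B]
    rw [smul_pow, hXN] at h3
    have h4 := congrFun (congrFun h3 a0) a0
    rw [Matrix.smul_apply, Matrix.one_apply_eq, smul_eq_mul, mul_one] at h4
    exact h4
  have hσc : σ c = c := by
    have h3 : (c ^ (κ - 1)) ^ p ^ a = 1 := by
      obtain ⟨k, hk⟩ := ha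
      rw [← pow_mul, hk, pow_mul, hcN, one_pow]
    have h4 : (c ^ (κ - 1)) ^ n = 1 := by rw [← pow_mul, mul_comm, pow_mul, hcn, one_pow]
    have h5 := pow_gcd_eq_one.2 ⟨h3, h4⟩
    rw [(hpn a).gcd_eq_one, pow_one] at h5
    rw [hG.hσ _ hcN]
    conv_lhs => rw [hκ, pow_succ, h5, one_mul]
  -- a nonzero trace
  obtain ⟨l, hl⟩ : ∃ l : L, (X * r l).trace ≠ 0 := by
    by_contra hall
    push Not at hall
    have h3 := orth hr hn0 X X'
    rw [hXX', Matrix.trace_one, Fintype.card_fin, div_mul_cancel₀ _ hn'] at h3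
    have h4 : (Fintype.card L : ℂ) ≠ 0 := by exact_mod_cast Fintype.card_ne_zero
    apply h4
    rw [← h3]
    exact sum_eq_zero fun l _ => by rw [hall l, zero_mul]
  have h3 : ∀ m : ℕ, σ^[m] (X * r l).trace = c ^ m * (X * r l).trace := by
    intro m
    induction m with
    | zero => rw [pow_zero, one_mul]; rfl
    | succ m ih =>
      rw [Function.iterate_succ_apply', ih, map_mul, map_pow, hσc, ht, pow_succ, mul_assoc]
  have h4 : c ^ p ^ j = 1 := by
    have h5 := h3 (p ^ j)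
    rw [gal_iter hG _ (hXrN l)] at h5
    have h6 : (X * r l) ^ κ ^ p ^ j = X * r l := by
      have h7 : κ ^ p ^ j % N = 1 % N := hj
      rw [← powmod (hXrN l) (κ ^ p ^ j), h7, powmod (hXrN l) 1, pow_one]
    rw [h6] at h5
    exact mul_right_cancel₀ hl (h5.symm.trans (one_mul _).symm)
  have hc1 : c = 1 := by
    have h5 := pow_gcd_eq_one.2 ⟨h4, hcn⟩
    rwa [(hpn j).gcd_eq_one, pow_one] at h5
  -- conclusion
  have h5 : σ X.trace = X.trace := by
    have h6 := ht 1
    rwa [map_one, Matrix.mul_one, hc1, one_mul] at h6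
  have h6 : σ z.trace = z.trace := by
    rw [gal_trace hG.hN σ hG.hσ z hzN]
    obtain ⟨k, hk⟩ := ho
    rw [hκ, hk, pow_succ, pow_mul, hzo, one_pow, one_mul]
  rw [hρy, Matrix.trace_kronecker, map_mul, h5, h6]

end

end Pool.Agent.Lib.MP_1aae89_al.BF
end

section
/-!
# Isotypic restriction or a system of imprimitivity
-/
set_option autoImplicit false

namespace Pool.Agent.Lib.MP_1aae89_al.BF

open Matrix Finset
open scoped Kronecker

/-! ## Generalised inverses -/

theorem regular {n : ℕ} (D : Matrix (Fin n) (Fin n) ℂ) :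
    ∃ X : Matrix (Fin n) (Fin n) ℂ, D * X * D = D := by
  set f : (Fin n → ℂ) →ₗ[ℂ] (Fin n → ℂ) := Matrix.toLin' D with hf
  obtain ⟨h, hh⟩ := f.rangeRestrict.exists_rightInverse_of_surjective f.range_rangeRestrict
  obtain ⟨g, hg⟩ := LinearMap.exists_extend h
  refine ⟨LinearMap.toMatrix' g, ?_⟩
  have h1 : f ∘ₗ g ∘ₗ f = f := by
    refine LinearMap.ext fun x => ?_
    have h2 : g (f x) = h (f.rangeRestrict x) := by
      rw [← hg]
      rfl
    have h3 : f.rangeRestrict (h (f.rangeRestrict x)) = f.rangeRestrict x := by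
      have := LinearMap.congr_fun hh (f.rangeRestrict x)
      exact this
    have h4 := congrArg Subtype.val h3
    change f (g (f x)) = f x
    rw [h2]
    exact h4
  have h2 := congrArg LinearMap.toMatrix' h1
  rw [LinearMap.toMatrix'_comp, LinearMap.toMatrix'_comp, hf, LinearMap.toMatrix'_toLin',
    ← Matrix.mul_assoc] at h2
  exact h2

section

variable {G : Type} [Group G] [Fintype G] {n : ℕ}

/-- the commutant is regular -/
theorem regular_comm (r : G →* Matrix (Fin n) (Fin n) ℂ) (D : Matrix (Fin n) (Fin n) ℂ)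
    (hD : ∀ g, D * r g = r g * D) :
    ∃ X : Matrix (Fin n) (Fin n) ℂ, D * X * D = D ∧ ∀ g, X * r g = r g * X := by
  obtain ⟨X, hX⟩ := regular D
  have hG : (Fintype.card G : ℂ) ≠ 0 := by exact_mod_cast Fintype.card_ne_zero
  refine ⟨(Fintype.card G : ℂ)⁻¹ • ∑ g, r g * X * r g⁻¹, ?_, ?_⟩
  · rw [Matrix.mul_smul, Matrix.smul_mul, Matrix.mul_sum, Matrix.sum_mul]
    have h1 : ∀ g ∈ univ, D * (r g * X * r g⁻¹) * D = D := by
      intro g _
      calc D * (r g * X * r g⁻¹) * D = (D * r g) * X * (r g⁻¹ * D) := by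
            simp only [Matrix.mul_assoc]
        _ = r g * (D * X * D) * r g⁻¹ := by
            rw [hD, ← hD g⁻¹]
            simp only [Matrix.mul_assoc]
        _ = D := by rw [hX, ← hD, Matrix.mul_assoc, mul_inv_r, Matrix.mul_one]
    rw [sum_congr rfl h1, sum_const, card_univ, ← Nat.cast_smul_eq_nsmul ℂ, smul_smul,
      inv_mul_cancel₀ hG, one_smul]
  · intro g
    rw [Matrix.smul_mul, Matrix.mul_smul, avg2]

/-- the trace of an idempotent -/
theorem trace_fac {k : ℕ} {J : Matrix (Fin n) (Fin k) ℂ} {J' : Matrix (Fin k) (Fin n) ℂ}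
    (h : J' * J = 1) : (J * J').trace = k := by
  rw [Matrix.trace_mul_comm, h, Matrix.trace_one, Fintype.card_fin]

/-- an idempotent of trace zero vanishes -/
theorem idem_trace_zero {E : Matrix (Fin n) (Fin n) ℂ} (hE : E * E = E) (h : E.trace = 0) :
    E = 0 := by
  obtain ⟨k, J, J', h1, h2⟩ := idem_factor E hE
  rw [← h1, trace_fac h2] at h
  have hk : k = 0 := by exact_mod_cast h
  subst hk
  rw [← h1]
  ext i j
  rw [Matrix.mul_apply]
  simp

/-- the compression of a representation -/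
def compr (r : G →* Matrix (Fin n) (Fin n) ℂ) {k : ℕ} (J : Matrix (Fin n) (Fin k) ℂ)
    (J' : Matrix (Fin k) (Fin n) ℂ) (h : J' * J = 1)
    (hc : ∀ g, J * J' * r g = r g * (J * J')) : G →* Matrix (Fin k) (Fin k) ℂ where
  toFun g := J' * r g * J
  map_one' := by rw [map_one, Matrix.mul_one, h]
  map_mul' g g' := by
    calc J' * r (g * g') * J = J' * J * J' * r g * r g' * J := by
          rw [map_mul, h, Matrix.one_mul]
          simp only [Matrix.mul_assoc]
      _ = J' * (J * J' * r g) * r g' * J := by simp only [Matrix.mul_assoc]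
      _ = J' * r g * J * (J' * r g' * J) := by
          rw [hc]
          simp only [Matrix.mul_assoc]

omit [Fintype G] in
theorem compr_apply (r : G →* Matrix (Fin n) (Fin n) ℂ) {k : ℕ} (J : Matrix (Fin n) (Fin k) ℂ)
    (J' : Matrix (Fin k) (Fin n) ℂ) (h : J' * J = 1)
    (hc : ∀ g, J * J' * r g = r g * (J * J')) (g : G) :
    compr r J J' h hc g = J' * r g * J := rfl

omit [Fintype G] in
theorem compr_left (r : G →* Matrix (Fin n) (Fin n) ℂ) {k : ℕ} (J : Matrix (Fin n) (Fin k) ℂ)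
    (J' : Matrix (Fin k) (Fin n) ℂ) (h : J' * J = 1)
    (hc : ∀ g, J * J' * r g = r g * (J * J')) (g : G) :
    r g * J = J * compr r J J' h hc g := by
  rw [compr_apply]
  calc r g * J = r g * (J * J') * J := by
        rw [Matrix.mul_assoc, Matrix.mul_assoc, h, Matrix.mul_one]
    _ = J * (J' * r g * J) := by rw [← hc]; simp only [Matrix.mul_assoc]

omit [Fintype G] in
theorem compr_right (r : G →* Matrix (Fin n) (Fin n) ℂ) {k : ℕ} (J : Matrix (Fin n) (Fin k) ℂ)
    (J' : Matrix (Fin k) (Fin n) ℂ) (h : J' * J = 1)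
    (hc : ∀ g, J * J' * r g = r g * (J * J')) (g : G) :
    J' * r g = compr r J J' h hc g * J' := by
  rw [compr_apply]
  calc J' * r g = J' * (J * J' * r g) := by
        rw [← Matrix.mul_assoc, ← Matrix.mul_assoc, h, Matrix.one_mul]
    _ = J' * r g * J * J' := by rw [hc]; simp only [Matrix.mul_assoc]

/-- a representation which is not `Sch` has a nontrivial idempotent in its commutant -/
theorem exists_idem {r : G →* Matrix (Fin n) (Fin n) ℂ} (hn : n ≠ 0) (hr : ¬ Sch r) :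
    ∃ F : Matrix (Fin n) (Fin n) ℂ, F * F = F ∧ F ≠ 0 ∧ F ≠ 1 ∧ ∀ g, F * r g = r g * F := by
  unfold Sch at hr
  push Not at hr
  obtain ⟨T, hT, hTs⟩ := hr
  have i0 : Fin n := ⟨0, Nat.pos_of_ne_zero hn⟩
  have : Nonempty (Fin n) := ⟨i0⟩
  obtain ⟨c, hc⟩ := Module.End.exists_eigenvalue (Matrix.toLin' T)
  obtain ⟨v, hv⟩ := hc.exists_hasEigenvector
  have hv1 : T *ᵥ v = c • v := by
    have := hv.apply_eq_smul
    rwa [Matrix.toLin'_apply] at this
  set D := T - c • (1 : Matrix (Fin n) (Fin n) ℂ) with hD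
  have hD0 : D ≠ 0 := fun h => hTs c (sub_eq_zero.1 h)
  have hDv : D *ᵥ v = 0 := by
    rw [hD, Matrix.sub_mulVec, hv1, Matrix.smul_mulVec, Matrix.one_mulVec, sub_self]
  have hDc : ∀ g, D * r g = r g * D := by
    intro g
    rw [hD, Matrix.sub_mul, Matrix.mul_sub, hT, Matrix.smul_mul, Matrix.mul_smul, Matrix.one_mul,
      Matrix.mul_one]
  obtain ⟨X, hX, hXc⟩ := regular_comm r D hDc
  refine ⟨X * D, ?_, ?_, ?_, ?_⟩
  · calc X * D * (X * D) = X * (D * X * D) := by simp only [Matrix.mul_assoc]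
      _ = X * D := by rw [hX]
  · intro h
    apply hD0
    rw [← hX, Matrix.mul_assoc, h, Matrix.mul_zero]
  · intro h
    have h1 : (X * D) *ᵥ v = 0 := by rw [← Matrix.mulVec_mulVec, hDv, Matrix.mulVec_zero]
    rw [h, Matrix.one_mulVec] at h1
    exact hv.2 h1
  · intro g
    rw [Matrix.mul_assoc, hDc, ← Matrix.mul_assoc, hXc, Matrix.mul_assoc]

end

/-- every representation has an irreducible direct summand -/
theorem exists_sub {G : Type} [Group G] [Fintype G] (n : ℕ) (hn : n ≠ 0)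
    (r : G →* Matrix (Fin n) (Fin n) ℂ) :
    ∃ (m : ℕ) (r' : G →* Matrix (Fin m) (Fin m) ℂ) (J : Matrix (Fin n) (Fin m) ℂ)
      (J' : Matrix (Fin m) (Fin n) ℂ), m ≠ 0 ∧ Sch r' ∧ J' * J = 1 ∧
      (∀ g, r g * J = J * r' g) ∧ ∀ g, J' * r g = r' g * J' := by
  induction n using Nat.strong_induction_on with
  | _ n ih =>
    by_cases hr : Sch r
    · exact ⟨n, r, 1, 1, hn, hr, Matrix.mul_one 1, fun g => by rw [Matrix.mul_one, Matrix.one_mul],
        fun g => by rw [Matrix.mul_one, Matrix.one_mul]⟩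
    · obtain ⟨F, hF, hF0, hF1, hFc⟩ := exists_idem hn hr
      obtain ⟨k, J, J', h1, h2⟩ := idem_factor F hF
      have hk0 : k ≠ 0 := by
        rintro rfl
        apply hF0
        rw [← h1]
        ext i j
        rw [Matrix.mul_apply]
        simp
      have hkn : k < n := by
        obtain ⟨k', K, K', h3, h4⟩ := idem_factor (1 - F) (by
          rw [Matrix.mul_sub, Matrix.sub_mul, Matrix.sub_mul, Matrix.one_mul, Matrix.mul_one,
            Matrix.one_mul, hF, sub_self, sub_zero])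
        have h5 := trace_fac h2
        have h6 := trace_fac h4
        rw [h1] at h5
        rw [h3, Matrix.trace_sub, Matrix.trace_one, Fintype.card_fin, h5] at h6
        have h7 : (n : ℂ) = ((k + k' : ℕ) : ℂ) := by
          push_cast
          linear_combination h6
        have h8 : n = k + k' := by exact_mod_cast h7
        rcases Nat.eq_zero_or_pos k' with h9 | h9
        · exfalso
          apply hF1
          have h10 : (1 - F).trace = 0 := by
            rw [Matrix.trace_sub, Matrix.trace_one, Fintype.card_fin, h5, h8, h9]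
            push_cast
            ring
          have h11 := idem_trace_zero (E := 1 - F) (by
            rw [Matrix.mul_sub, Matrix.sub_mul, Matrix.sub_mul, Matrix.one_mul, Matrix.mul_one,
              Matrix.one_mul, hF, sub_self, sub_zero]) h10
          exact (sub_eq_zero.1 h11).symm
        · omega
      have hc : ∀ g, J * J' * r g = r g * (J * J') := fun g => by rw [h1, hFc]
      obtain ⟨m, r', K, K', hm, hS, h3, h4, h5⟩ := ih k hkn hk0 (compr r J J' h2 hc)
      refine ⟨m, r', J * K, K' * J', hm, hS, ?_, ?_, ?_⟩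
      · calc K' * J' * (J * K) = K' * (J' * J) * K := by simp only [Matrix.mul_assoc]
          _ = 1 := by rw [h2, Matrix.mul_one, h3]
      · intro g
        rw [← Matrix.mul_assoc, compr_left r J J' h2 hc, Matrix.mul_assoc, h4, Matrix.mul_assoc]
      · intro g
        rw [Matrix.mul_assoc, compr_right r J J' h2 hc, ← Matrix.mul_assoc, h5, Matrix.mul_assoc]

/-! ## Matrix units -/

section units

variable {G : Type} [Group G] [Fintype G] {n m : ℕ}

theorem entry_orth {r : G →* Matrix (Fin m) (Fin m) ℂ} (hr : Sch r) (hm : m ≠ 0)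
    (a b c d : Fin m) :
    ∑ g, r g a b * r g⁻¹ c d = if b = c ∧ a = d then (Fintype.card G : ℂ) / m else 0 := by
  have h := congrFun (congrFun (avg hr hm (Matrix.single b c 1)) a) d
  rw [Matrix.sum_apply] at h
  have h1 : ∀ g ∈ univ, (r g * Matrix.single b c (1 : ℂ) * r g⁻¹ : Matrix (Fin m) (Fin m) ℂ) a d =
      r g a b * r g⁻¹ c d := by
    intro g _
    rw [Matrix.mul_apply, Finset.sum_eq_single c]
    · rw [Matrix.mul_single_apply_same, mul_one]
    · intro k _ hk
      rw [Matrix.mul_single_apply_of_ne (hbj := hk), zero_mul]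
    · intro h; exact absurd (mem_univ _) h
  rw [sum_congr rfl h1] at h
  rw [h, Matrix.smul_apply, smul_eq_mul, Matrix.one_apply]
  by_cases hbc : b = c
  · subst hbc
    rw [Matrix.trace_single_eq_same]
    by_cases had : a = d
    · simp [had]
    · simp [had]
  · rw [Matrix.trace_single_eq_of_ne _ _ _ hbc]
    simp [hbc]

/-- the matrix units of the isotypic component of `r'` in `r` -/
noncomputable def mu (r : G →* Matrix (Fin n) (Fin n) ℂ) (r' : G →* Matrix (Fin m) (Fin m) ℂ)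
    (i j : Fin m) : Matrix (Fin n) (Fin n) ℂ :=
  ((m : ℂ) / Fintype.card G) • ∑ g, r' g⁻¹ j i • r g

theorem mu_mul (r : G →* Matrix (Fin n) (Fin n) ℂ) {r' : G →* Matrix (Fin m) (Fin m) ℂ}
    (hr : Sch r') (hm : m ≠ 0) (i j k l : Fin m) :
    mu r r' i j * mu r r' k l = if j = k then mu r r' i l else 0 := by
  have hm' : (m : ℂ) ≠ 0 := by exact_mod_cast hm
  have hG : (Fintype.card G : ℂ) ≠ 0 := by exact_mod_cast Fintype.card_ne_zero
  -- the product of the two sums
  have h1 : (∑ g, r' g⁻¹ j i • r g) * (∑ h, r' h⁻¹ l k • r h) =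
      ∑ u, (∑ h, r' (h * u⁻¹) j i * r' h⁻¹ l k) • r u := by
    rw [Matrix.sum_mul]
    have h2 : ∀ g ∈ univ, (r' g⁻¹ j i • r g) * (∑ h, r' h⁻¹ l k • r h) =
        ∑ h, (r' g⁻¹ j i * r' h⁻¹ l k) • r (g * h) := by
      intro g _
      rw [Matrix.mul_sum]
      refine sum_congr rfl fun h _ => ?_
      rw [Matrix.smul_mul, Matrix.mul_smul, smul_smul, ← map_mul]
    rw [sum_congr rfl h2, sum_comm]
    have h3 : ∀ h ∈ univ, ∑ g, (r' g⁻¹ j i * r' h⁻¹ l k) • r (g * h) =
        ∑ u, (r' (h * u⁻¹) j i * r' h⁻¹ l k) • r u := by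
      intro h _
      refine Fintype.sum_equiv (Equiv.mulRight h) _ _ fun g => ?_
      change _ = (r' (h * (g * h)⁻¹) j i * r' h⁻¹ l k) • r (g * h)
      rw [_root_.mul_inv_rev, mul_inv_cancel_left]
    rw [sum_congr rfl h3, sum_comm]
    refine sum_congr rfl fun u _ => ?_
    rw [Finset.sum_smul]
  have h4 : ∀ u, ∑ h, r' (h * u⁻¹) j i * r' h⁻¹ l k =
      if j = k then (Fintype.card G : ℂ) / m * r' u⁻¹ l i else 0 := by
    intro u
    have h5 : ∀ h ∈ univ, r' (h * u⁻¹) j i * r' h⁻¹ l k =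
        ∑ x, (r' h j x * r' h⁻¹ l k) * r' u⁻¹ x i := by
      intro h _
      rw [map_mul, Matrix.mul_apply, Finset.sum_mul]
      refine sum_congr rfl fun x _ => ?_
      ring
    rw [sum_congr rfl h5, sum_comm]
    have h6 : ∀ x ∈ univ, ∑ h, (r' h j x * r' h⁻¹ l k) * r' u⁻¹ x i =
        if x = l then (if j = k then (Fintype.card G : ℂ) / m * r' u⁻¹ l i else 0) else 0 := by
      intro x _
      rw [← Finset.sum_mul, entry_orth hr hm]
      by_cases hx : x = l
      · subst hx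
        by_cases hj : j = k
        · simp [hj]
        · simp [hj]
      · simp [hx]
    rw [sum_congr rfl h6, Finset.sum_ite_eq' univ]
    simp
  unfold mu
  rw [Matrix.smul_mul, Matrix.mul_smul, smul_smul, h1]
  simp only [h4]
  by_cases hj : j = k
  · rw [if_pos hj]
    simp only [if_pos hj]
    have h7 : ∀ u ∈ univ, ((Fintype.card G : ℂ) / m * r' u⁻¹ l i) • r u =
        ((Fintype.card G : ℂ) / m) • (r' u⁻¹ l i • r u) := by
      intro u _
      rw [smul_smul]
    rw [sum_congr rfl h7, ← Finset.smul_sum, smul_smul]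
    congr 1
    field_simp
  · rw [if_neg hj]
    simp [hj]

theorem r_mu (r : G →* Matrix (Fin n) (Fin n) ℂ) (r' : G →* Matrix (Fin m) (Fin m) ℂ)
    (h : G) (i j : Fin m) :
    r h * mu r r' i j = ∑ k, r' h k i • mu r r' k j := by
  unfold mu
  rw [Matrix.mul_smul, Matrix.mul_sum]
  have h1 : ∀ g ∈ univ, r h * (r' g⁻¹ j i • r g) = r' g⁻¹ j i • r (h * g) := by
    intro g _
    rw [Matrix.mul_smul, ← map_mul]
  rw [sum_congr rfl h1]
  have h2 : ∑ g, r' g⁻¹ j i • r (h * g) = ∑ u, r' (u⁻¹ * h) j i • r u := by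
    refine Fintype.sum_equiv (Equiv.mulLeft h) _ _ fun g => ?_
    change _ = r' ((h * g)⁻¹ * h) j i • r (h * g)
    rw [_root_.mul_inv_rev, inv_mul_cancel_right]
  have h3 : ∀ k ∈ univ, r' h k i • ((m : ℂ) / Fintype.card G) • ∑ g, r' g⁻¹ j k • r g =
      ((m : ℂ) / Fintype.card G) • ∑ g, (r' g⁻¹ j k * r' h k i) • r g := by
    intro k _
    rw [smul_comm, Finset.smul_sum]
    congr 1
    refine sum_congr rfl fun g _ => ?_
    rw [smul_smul, mul_comm]
  rw [h2, sum_congr rfl h3, ← Finset.smul_sum]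
  congr 1
  rw [sum_comm]
  refine sum_congr rfl fun u _ => ?_
  rw [map_mul, Matrix.mul_apply, Finset.sum_smul]

/-- the central idempotent -/
noncomputable def cen (r : G →* Matrix (Fin n) (Fin n) ℂ) (r' : G →* Matrix (Fin m) (Fin m) ℂ) :
    Matrix (Fin n) (Fin n) ℂ := ∑ i, mu r r' i i

theorem cen_eq (r : G →* Matrix (Fin n) (Fin n) ℂ) (r' : G →* Matrix (Fin m) (Fin m) ℂ) :
    cen r r' = ((m : ℂ) / Fintype.card G) • ∑ g, (r' g⁻¹).trace • r g := by
  unfold cen mu
  rw [← Finset.smul_sum, sum_comm]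
  congr 1
  refine sum_congr rfl fun g _ => ?_
  rw [← Finset.sum_smul]
  rfl

theorem cen_idem (r : G →* Matrix (Fin n) (Fin n) ℂ) {r' : G →* Matrix (Fin m) (Fin m) ℂ}
    (hr : Sch r') (hm : m ≠ 0) : cen r r' * cen r r' = cen r r' := by
  unfold cen
  rw [Matrix.sum_mul]
  refine sum_congr rfl fun i _ => ?_
  rw [Matrix.mul_sum]
  simp only [mu_mul r hr hm]
  rw [Finset.sum_ite_eq univ]
  simp

theorem cen_comm (r : G →* Matrix (Fin n) (Fin n) ℂ) (r' : G →* Matrix (Fin m) (Fin m) ℂ)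
    (h : G) : cen r r' * r h = r h * cen r r' := by
  rw [cen_eq, Matrix.smul_mul, Matrix.mul_smul, Matrix.sum_mul, Matrix.mul_sum]
  congr 1
  refine Fintype.sum_equiv (MulAut.conj h⁻¹).toEquiv _ _ fun g => ?_
  change (r' g⁻¹).trace • r g * r h = r h * ((r' (h⁻¹ * g * h⁻¹⁻¹)⁻¹).trace •
    r (h⁻¹ * g * h⁻¹⁻¹))
  rw [Matrix.smul_mul, Matrix.mul_smul, ← map_mul, ← map_mul]
  have h1 : h * (h⁻¹ * g * h⁻¹⁻¹) = g * h := by group
  have h2 : (h⁻¹ * g * h⁻¹⁻¹)⁻¹ = h⁻¹ * (g⁻¹ * h) := by group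
  rw [h1, h2, map_mul r' h⁻¹, Matrix.trace_mul_comm, ← map_mul, mul_assoc, mul_inv_cancel, mul_one]

theorem cen_comm2 (r : G →* Matrix (Fin n) (Fin n) ℂ) (r' : G →* Matrix (Fin m) (Fin m) ℂ)
    {T : Matrix (Fin n) (Fin n) ℂ} (hT : ∀ g, T * r g = r g * T) :
    T * cen r r' = cen r r' * T := by
  rw [cen_eq, Matrix.smul_mul, Matrix.mul_smul, Matrix.sum_mul, Matrix.mul_sum]
  congr 1
  refine sum_congr rfl fun g _ => ?_
  rw [Matrix.smul_mul, Matrix.mul_smul, hT]

theorem cen_self {r' : G →* Matrix (Fin m) (Fin m) ℂ} (hr : Sch r') (hm : m ≠ 0) :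
    cen r' r' = 1 := by
  have hm' : (m : ℂ) ≠ 0 := by exact_mod_cast hm
  have hG : (Fintype.card G : ℂ) ≠ 0 := by exact_mod_cast Fintype.card_ne_zero
  rw [cen_eq]
  ext a b
  rw [Matrix.smul_apply, Matrix.sum_apply, smul_eq_mul]
  have h1 : ∀ g ∈ univ, ((r' g⁻¹).trace • r' g) a b = ∑ x, r' g a b * r' g⁻¹ x x := by
    intro g _
    rw [Matrix.smul_apply, smul_eq_mul, Matrix.trace, Finset.sum_mul]
    refine sum_congr rfl fun x _ => ?_
    rw [Matrix.diag_apply, mul_comm]
  rw [sum_congr rfl h1, sum_comm]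
  have h2 : ∀ x ∈ univ, ∑ g, r' g a b * r' g⁻¹ x x =
      if x = b then (if a = b then (Fintype.card G : ℂ) / m else 0) else 0 := by
    intro x _
    rw [entry_orth hr hm]
    by_cases hx : x = b
    · subst hx
      simp
    · have : b ≠ x := fun h => hx h.symm
      simp [hx, this]
  rw [sum_congr rfl h2, Finset.sum_ite_eq' univ, Matrix.one_apply]
  by_cases hab : a = b
  · simp only [hab, mem_univ, if_true]
    field_simp
  · simp [hab]

theorem cen_mul_J (r : G →* Matrix (Fin n) (Fin n) ℂ) {r' : G →* Matrix (Fin m) (Fin m) ℂ}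
    (hr : Sch r') (hm : m ≠ 0) {J : Matrix (Fin n) (Fin m) ℂ} (hJ : ∀ g, r g * J = J * r' g) :
    cen r r' * J = J := by
  have h1 : cen r r' * J = J * cen r' r' := by
    rw [cen_eq, cen_eq, Matrix.smul_mul, Matrix.mul_smul, Matrix.sum_mul, Matrix.mul_sum]
    congr 1
    refine sum_congr rfl fun g _ => ?_
    rw [Matrix.smul_mul, Matrix.mul_smul, hJ]
  rw [h1, cen_self hr hm, Matrix.mul_one]

/-- if the central idempotent is `1` then the representation is a multiple of `r'` -/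
theorem isotypic_of_cen (r : G →* Matrix (Fin n) (Fin n) ℂ) {r' : G →* Matrix (Fin m) (Fin m) ℂ}
    (hr : Sch r') (hm : m ≠ 0) (h1 : cen r r' = 1) :
    ∃ (e : ℕ) (Q : Matrix (Fin n) (Fin e × Fin m) ℂ) (Q' : Matrix (Fin e × Fin m) (Fin n) ℂ),
      Q * Q' = 1 ∧ Q' * Q = 1 ∧
      ∀ g, r g * Q = Q * ((1 : Matrix (Fin e) (Fin e) ℂ) ⊗ₖ r' g) := by
  have i0 : Fin m := ⟨0, Nat.pos_of_ne_zero hm⟩
  obtain ⟨e, J, J', hJJ', hJ'J⟩ := idem_factor (mu r r' i0 i0) (by
    rw [mu_mul r hr hm, if_pos rfl])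
  refine ⟨e, Matrix.of fun a p => (mu r r' p.2 i0 * J) a p.1,
    Matrix.of fun p a => (J' * mu r r' i0 p.2) p.1 a, ?_, ?_, ?_⟩
  · rw [← h1]
    ext a b
    rw [Matrix.mul_apply, Fintype.sum_prod_type, sum_comm]
    unfold cen
    rw [Matrix.sum_apply]
    refine sum_congr rfl fun i _ => ?_
    have h2 : mu r r' i i = (mu r r' i i0 * J) * (J' * mu r r' i0 i) := by
      calc mu r r' i i = mu r r' i i0 * mu r r' i0 i0 * mu r r' i0 i := by
            rw [mu_mul r hr hm, if_pos rfl, mu_mul r hr hm, if_pos rfl]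
        _ = _ := by
            rw [← hJJ']
            simp only [Matrix.mul_assoc]
    rw [h2, Matrix.mul_apply]
    rfl
  · ext ⟨a, i⟩ ⟨b, j⟩
    have h2 : (J' * mu r r' i0 i) * (mu r r' j i0 * J) =
        if i = j then (1 : Matrix (Fin e) (Fin e) ℂ) else 0 := by
      calc (J' * mu r r' i0 i) * (mu r r' j i0 * J) =
            J' * (mu r r' i0 i * mu r r' j i0) * J := by simp only [Matrix.mul_assoc]
        _ = _ := by
          rw [mu_mul r hr hm]
          by_cases hij : i = j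
          · rw [if_pos hij, if_pos hij, ← hJJ']
            calc J' * (J * J') * J = (J' * J) * (J' * J) := by simp only [Matrix.mul_assoc]
              _ = 1 := by rw [hJ'J, Matrix.mul_one]
          · rw [if_neg hij, if_neg hij, Matrix.mul_zero, Matrix.zero_mul]
    have h3 := congrFun (congrFun h2 a) b
    rw [Matrix.mul_apply] at h3
    rw [Matrix.mul_apply]
    refine Eq.trans h3 ?_
    by_cases hij : i = j
    · subst hij
      rw [if_pos rfl, Matrix.one_apply, Matrix.one_apply]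
      simp
    · rw [if_neg hij, Matrix.one_apply, if_neg]
      · rfl
      · intro h
        exact hij (congrArg Prod.snd h)
  · intro g
    ext a ⟨b, j⟩
    have h2 : r g * (mu r r' j i0 * J) = ∑ k, r' g k j • (mu r r' k i0 * J) := by
      rw [← Matrix.mul_assoc, r_mu, Matrix.sum_mul]
      refine sum_congr rfl fun k _ => ?_
      rw [Matrix.smul_mul]
    have h3 := congrFun (congrFun h2 a) b
    rw [Matrix.mul_apply] at h3
    rw [Matrix.mul_apply]
    refine Eq.trans h3 ?_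
    rw [Matrix.sum_apply, Matrix.mul_apply, Fintype.sum_prod_type, sum_comm]
    refine sum_congr rfl fun k _ => ?_
    rw [Finset.sum_eq_single b]
    · rw [Matrix.smul_apply, smul_eq_mul, kroneckerMap_apply, Matrix.one_apply_eq, one_mul,
        mul_comm]
      rfl
    · intro c _ hc
      rw [kroneckerMap_apply, Matrix.one_apply_ne hc, zero_mul, mul_zero]
    · intro h; exact absurd (mem_univ _) h

end units

/-! ## The dichotomy -/

section dich

variable {H : Type} [Group H] {n : ℕ}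

/-- the centre of the commutant of `r(L)` -/
def ZZ (r : H →* Matrix (Fin n) (Fin n) ℂ) (L : Subgroup H) : Set (Matrix (Fin n) (Fin n) ℂ) :=
  {z | (∀ l ∈ L, z * r l = r l * z) ∧
    ∀ y : Matrix (Fin n) (Fin n) ℂ, (∀ l ∈ L, y * r l = r l * y) → y * z = z * y}

theorem ZZ_mul {r : H →* Matrix (Fin n) (Fin n) ℂ} {L : Subgroup H} {z w : Matrix (Fin n) (Fin n) ℂ}
    (hz : z ∈ ZZ r L) (hw : w ∈ ZZ r L) : z * w ∈ ZZ r L := by
  refine ⟨fun l hl => ?_, fun y hy => ?_⟩
  · rw [Matrix.mul_assoc, hw.1 l hl, ← Matrix.mul_assoc, hz.1 l hl, Matrix.mul_assoc]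
  · rw [← Matrix.mul_assoc, hz.2 y hy, Matrix.mul_assoc, hw.2 y hy, Matrix.mul_assoc]

theorem ZZ_comm {r : H →* Matrix (Fin n) (Fin n) ℂ} {L : Subgroup H} {z w : Matrix (Fin n) (Fin n) ℂ}
    (hz : z ∈ ZZ r L) (hw : w ∈ ZZ r L) : z * w = w * z := hw.2 z hz.1

theorem ZZ_conj {r : H →* Matrix (Fin n) (Fin n) ℂ} {L : Subgroup H} [hL : L.Normal]
    {z : Matrix (Fin n) (Fin n) ℂ} (hz : z ∈ ZZ r L) (g : H) : r g * z * r g⁻¹ ∈ ZZ r L := by
  have h1 : ∀ l ∈ L, g⁻¹ * l * g ∈ L := fun l hl => by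
    have := hL.conj_mem l hl g⁻¹
    rwa [inv_inv] at this
  have h2 : ∀ l ∈ L, g * l * g⁻¹ ∈ L := fun l hl => hL.conj_mem l hl g
  refine ⟨fun l hl => ?_, fun y hy => ?_⟩
  · calc r g * z * r g⁻¹ * r l = r g * (z * r (g⁻¹ * l * g)) * r g⁻¹ := by
          rw [map_mul, map_mul]
          simp only [Matrix.mul_assoc]
          rw [mul_inv_r, Matrix.mul_one]
      _ = r l * (r g * z * r g⁻¹) := by
          rw [hz.1 _ (h1 l hl), map_mul, map_mul]
          simp only [← Matrix.mul_assoc]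
          rw [mul_inv_r, Matrix.one_mul]
  · have h3 : ∀ l ∈ L, (r g⁻¹ * y * r g) * r l = r l * (r g⁻¹ * y * r g) := by
      intro l hl
      calc (r g⁻¹ * y * r g) * r l = r g⁻¹ * (y * r (g * l * g⁻¹)) * r g := by
            rw [map_mul, map_mul]
            simp only [Matrix.mul_assoc]
            rw [inv_mul_r, Matrix.mul_one]
        _ = r l * (r g⁻¹ * y * r g) := by
            rw [hy _ (h2 l hl), map_mul, map_mul]
            simp only [← Matrix.mul_assoc]
            rw [inv_mul_r, Matrix.one_mul]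
    have h4 := hz.2 _ h3
    calc y * (r g * z * r g⁻¹) = r g * (r g⁻¹ * y * r g * z) * r g⁻¹ := by
          simp only [← Matrix.mul_assoc]
          rw [mul_inv_r, Matrix.one_mul]
      _ = r g * z * r g⁻¹ * y := by
          rw [h4]
          simp only [Matrix.mul_assoc]
          rw [mul_inv_r, Matrix.mul_one]

theorem dicho [Fintype H] (r : H →* Matrix (Fin n) (Fin n) ℂ) (L : Subgroup H) [L.Normal]
    (hn : n ≠ 0) :
    (∃ (e m : ℕ) (r' : L →* Matrix (Fin m) (Fin m) ℂ) (Q : Matrix (Fin n) (Fin e × Fin m) ℂ)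
      (Q' : Matrix (Fin e × Fin m) (Fin n) ℂ), n = e * m ∧ Sch r' ∧ Q * Q' = 1 ∧ Q' * Q = 1 ∧
      ∀ l : L, r l * Q = Q * ((1 : Matrix (Fin e) (Fin e) ℂ) ⊗ₖ r' l)) ∨
    (∃ (T : Subgroup H) (E : Matrix (Fin n) (Fin n) ℂ), L ≤ T ∧ E * E = E ∧ E ≠ 0 ∧ E ≠ 1 ∧
      (∀ t ∈ T, r t * E = E * r t) ∧ ∀ g ∉ T, E * r g * E = 0) := by
  classical
  obtain ⟨m, r', J, J', hm, hr', hJ'J, hrJ, -⟩ := exists_sub n hn (r.comp L.subtype)
  by_cases hC : cen (r.comp L.subtype) r' = 1
  · left
    obtain ⟨e, Q, Q', h1, h2, h3⟩ := isotypic_of_cen (r.comp L.subtype) hr' hm hC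
    refine ⟨e, m, r', Q, Q', ?_, hr', h1, h2, h3⟩
    have h4 : (Q * Q').trace = (Q' * Q).trace := Matrix.trace_mul_comm _ _
    rw [h1, h2, Matrix.trace_one, Matrix.trace_one, Fintype.card_prod, Fintype.card_fin,
      Fintype.card_fin, Fintype.card_fin] at h4
    exact_mod_cast h4
  · right
    set C := cen (r.comp L.subtype) r' with hCd
    have hCid : C * C = C := cen_idem _ hr' hm
    have hC0 : C ≠ 0 := by
      intro h
      have h1 := cen_mul_J (r.comp L.subtype) hr' hm hrJ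
      rw [← hCd, h, Matrix.zero_mul] at h1
      rw [← h1, Matrix.mul_zero] at hJ'J
      have h2 := congrArg Matrix.trace hJ'J
      rw [Matrix.trace_zero, Matrix.trace_one, Fintype.card_fin] at h2
      exact hm (by exact_mod_cast h2.symm)
    have hCZ : C ∈ ZZ r L := by
      refine ⟨fun l hl => cen_comm (r.comp L.subtype) r' ⟨l, hl⟩, fun y hy => ?_⟩
      exact cen_comm2 (r.comp L.subtype) r' fun l => hy l.1 l.2
    -- the trace of a nonzero idempotent
    have htr : ∀ E : Matrix (Fin n) (Fin n) ℂ, E * E = E → ∃ k : ℕ, E.trace = k := by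
      intro E hE
      obtain ⟨k, K, K', h1, h2⟩ := idem_factor E hE
      exact ⟨k, by rw [← h1, trace_fac h2]⟩
    have hex : ∃ k : ℕ, k ≠ 0 ∧ ∃ E ∈ ZZ r L, E * E = E ∧ E.trace = k := by
      obtain ⟨k, hk⟩ := htr C hCid
      refine ⟨k, ?_, C, hCZ, hCid, hk⟩
      rintro rfl
      exact hC0 (idem_trace_zero hCid (by rw [hk]; simp))
    obtain ⟨hk0, E, hEZ, hE, hEk⟩ := Nat.find_spec hex
    set k := Nat.find hex with hkd
    have hmin : ∀ F ∈ ZZ r L, F * F = F → F ≠ 0 → ∀ k' : ℕ, F.trace = k' → k ≤ k' := by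
      intro F hF hFF hF0 k' hk'
      refine Nat.find_min' hex ⟨?_, F, hF, hFF, hk'⟩
      rintro rfl
      exact hF0 (idem_trace_zero hFF (by rw [hk']; simp))
    have hE0 : E ≠ 0 := by
      rintro rfl
      rw [Matrix.trace_zero] at hEk
      exact hk0 (by exact_mod_cast hEk.symm)
    have h1id : ∀ F G : Matrix (Fin n) (Fin n) ℂ, F * F = F → G * G = G → F * G = G → G * F = G →
        (F - G) * (F - G) = F - G := by
      intro F G h1 h2 h3 h4
      rw [Matrix.mul_sub, Matrix.sub_mul, Matrix.sub_mul, h1, h2, h3, h4]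
      abel
    have hdich : ∀ F ∈ ZZ r L, F * F = F → E * F = 0 ∨ E * F = E := by
      intro F hF hFF
      have hc : E * F = F * E := ZZ_comm hEZ hF
      have hEF : (E * F) * (E * F) = E * F := by
        calc (E * F) * (E * F) = E * (F * E) * F := by simp only [Matrix.mul_assoc]
          _ = (E * E) * (F * F) := by rw [← hc]; simp only [Matrix.mul_assoc]
          _ = E * F := by rw [hE, hFF]
      by_cases h0 : E * F = 0
      · left; exact h0
      · right
        obtain ⟨k', hk'⟩ := htr _ hEF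
        have h1 := hmin _ (ZZ_mul hEZ hF) hEF h0 k' hk'
        have h2 : (E - E * F) * (E - E * F) = E - E * F := by
          refine h1id _ _ hE hEF ?_ ?_
          · rw [← Matrix.mul_assoc, hE]
          · rw [Matrix.mul_assoc, ← hc, ← Matrix.mul_assoc, hE]
        obtain ⟨k'', hk''⟩ := htr _ h2
        have h3 : (k : ℂ) = ((k' + k'' : ℕ) : ℂ) := by
          rw [Matrix.trace_sub, hEk, hk'] at hk''
          push_cast
          linear_combination hk''
        have h4 : k = k' + k'' := by exact_mod_cast h3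
        have h5 : k'' = 0 := by omega
        have h6 := idem_trace_zero h2 (by rw [hk'', h5]; simp)
        exact (sub_eq_zero.1 h6).symm
    let T : Subgroup H :=
      { carrier := {g | r g * E = E * r g}
        mul_mem' := by
          intro a b ha hb
          change r (a * b) * E = E * r (a * b)
          have ha' : r a * E = E * r a := ha
          have hb' : r b * E = E * r b := hb
          rw [map_mul, Matrix.mul_assoc, hb', ← Matrix.mul_assoc, ha', Matrix.mul_assoc]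
        one_mem' := by
          change r 1 * E = E * r 1
          rw [map_one, Matrix.one_mul, Matrix.mul_one]
        inv_mem' := by
          intro a ha
          have ha' : r a * E = E * r a := ha
          change r a⁻¹ * E = E * r a⁻¹
          calc r a⁻¹ * E = r a⁻¹ * (E * r a) * r a⁻¹ := by
                rw [Matrix.mul_assoc, Matrix.mul_assoc, mul_inv_r, Matrix.mul_one]
            _ = E * r a⁻¹ := by
                rw [← ha', ← Matrix.mul_assoc, inv_mul_r, Matrix.one_mul] }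
    refine ⟨T, E, ?_, hE, hE0, ?_, fun t ht => ht, ?_⟩
    · intro l hl
      exact (hEZ.1 l hl).symm
    · -- `E ≠ 1`
      intro h1
      obtain ⟨k', hk'⟩ := htr C hCid
      have h2 := hmin C hCZ hCid hC0 k' hk'
      have h3 : (1 - C) * (1 - C) = 1 - C :=
        h1id _ _ (Matrix.mul_one 1) hCid (Matrix.one_mul C) (Matrix.mul_one C)
      obtain ⟨k'', hk''⟩ := htr _ h3
      have h4 : (k : ℂ) = ((k' + k'' : ℕ) : ℂ) := by
        rw [← hEk, h1]
        rw [Matrix.trace_sub, hk'] at hk''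
        push_cast
        linear_combination hk''
      have h5 : k = k' + k'' := by exact_mod_cast h4
      have h6 : k'' = 0 := by omega
      have h7 := idem_trace_zero h3 (by rw [hk'', h6]; simp)
      exact hC (sub_eq_zero.1 h7).symm
    · intro g hg
      have hF : r g * E * r g⁻¹ ∈ ZZ r L := ZZ_conj hEZ g
      have hFF : (r g * E * r g⁻¹) * (r g * E * r g⁻¹) = r g * E * r g⁻¹ := by
        calc (r g * E * r g⁻¹) * (r g * E * r g⁻¹) = r g * E * (r g⁻¹ * r g) * E * r g⁻¹ := by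
              simp only [Matrix.mul_assoc]
          _ = r g * (E * E) * r g⁻¹ := by
              rw [inv_mul_r, Matrix.mul_one]
              simp only [Matrix.mul_assoc]
          _ = r g * E * r g⁻¹ := by rw [hE]
      rcases hdich _ hF hFF with h1 | h1
      · calc E * r g * E = (E * (r g * E * r g⁻¹)) * r g := by
              simp only [Matrix.mul_assoc]
              rw [inv_mul_r, Matrix.mul_one]
          _ = 0 := by rw [h1, Matrix.zero_mul]
      · exfalso
        apply hg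
        have h2 : (r g * E * r g⁻¹) * E = E := by rw [← ZZ_comm hEZ hF, h1]
        have h3 := h1id _ _ hFF hE h2 h1
        have h4 : (r g * E * r g⁻¹ - E).trace = 0 := by
          rw [Matrix.trace_sub, Matrix.trace_mul_comm, ← Matrix.mul_assoc, inv_mul_r,
            Matrix.one_mul, sub_self]
        have h5 := sub_eq_zero.1 (idem_trace_zero h3 h4)
        change r g * E = E * r g
        calc r g * E = (r g * E * r g⁻¹) * r g := by
              rw [Matrix.mul_assoc, inv_mul_r, Matrix.mul_one]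
          _ = E * r g := by rw [h5]

end dich

end Pool.Agent.Lib.MP_1aae89_al.BF
end

section
/-!
# Multiplicities of linear characters of a `p`-group modulo `p`
-/
namespace Pool.Agent.Lib.MP_1aae89_al

open Finset

/-- A weighted version of the fixed point congruence. -/
theorem sum_modEq {X : Type} {p : ℕ} [hp : Fact p.Prime] (s : Finset X) (f : X → X)
    (hfs : ∀ x ∈ s, f x ∈ s) (hfp : ∀ x ∈ s, f^[p] x = x) (F : X → ℕ)
    (hF : ∀ x ∈ s, F (f x) = F x) [DecidablePred fun x => f x = x] :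
    ∑ x ∈ s, F x ≡ ∑ x ∈ s.filter (fun x => f x = x), F x [MOD p] := by
  classical
  let T := s.sigma fun x => range (F x)
  have hT : ∀ q : T, (⟨f q.1.1, q.1.2⟩ : Σ _ : X, ℕ) ∈ T := by
    rintro ⟨⟨x, i⟩, hq⟩
    rw [mem_sigma, mem_range] at hq
    rw [mem_sigma, mem_range]
    exact ⟨hfs x hq.1, by rw [hF x hq.1]; exact hq.2⟩
  let g : Function.End T := fun q => ⟨⟨f q.1.1, q.1.2⟩, hT q⟩
  have hg : ∀ (k : ℕ) (q : T), ((g ^ k) q).1 = ⟨f^[k] q.1.1, q.1.2⟩ := by
    intro k q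
    induction k with
    | zero => rfl
    | succ k ih =>
      have h1 : (g ^ (k + 1)) q = g ((g ^ k) q) := by rw [pow_succ']; rfl
      rw [h1, Function.iterate_succ_apply']
      show (⟨f ((g ^ k) q).1.1, ((g ^ k) q).1.2⟩ : Σ _ : X, ℕ) = _
      rw [ih]
  have hgp : g ^ p ^ 1 = 1 := by
    funext q
    apply Subtype.ext
    rw [pow_one, hg]
    have h1 := (mem_sigma.1 q.2).1
    rw [hfp _ h1]
    rfl
  have h1 := Equiv.Perm.card_fixedPoints_modEq (p := p) (n := 1) hgp
  have h2 : Fintype.card T = ∑ x ∈ s, F x := by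
    rw [Fintype.card_coe, card_sigma]
    exact sum_congr rfl fun x _ => card_range _
  have h3 : Fintype.card (Function.fixedPoints g) = ∑ x ∈ s.filter (fun x => f x = x), F x := by
    have h4 : ∑ x ∈ s.filter (fun x => f x = x), F x =
        #((s.filter (fun x => f x = x)).sigma fun x => range (F x)) := by
      rw [card_sigma]
      exact sum_congr rfl fun x _ => (card_range _).symm
    rw [h4, ← Fintype.card_coe]
    refine Fintype.card_congr ⟨fun q => ⟨q.1.1, ?_⟩, fun q => ⟨⟨q.1, ?_⟩, ?_⟩, ?_, ?_⟩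
    · have h5 : g q.1 = q.1 := q.2
      have h6 := congrArg (fun r : T => r.1.1) h5
      have h7 := mem_sigma.1 q.1.2
      rw [mem_sigma, mem_filter]
      exact ⟨⟨h7.1, h6⟩, h7.2⟩
    · have h7 := mem_sigma.1 q.2
      rw [mem_filter] at h7
      exact mem_sigma.2 ⟨h7.1.1, h7.2⟩
    · have h7 := mem_sigma.1 q.2
      rw [mem_filter] at h7
      show g _ = _
      apply Subtype.ext
      show (⟨f q.1.1, q.1.2⟩ : Σ _ : X, ℕ) = q.1
      rw [h7.1.2]
    · intro q; rfl
    · intro q; rfl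
  rw [h2, h3] at h1
  exact h1

theorem dvd_sum {X : Type} {p : ℕ} [hp : Fact p.Prime] (s : Finset X) (f : X → X)
    (hfs : ∀ x ∈ s, f x ∈ s) (hfp : ∀ x ∈ s, f^[p] x = x) (F : X → ℕ)
    (hF : ∀ x ∈ s, F (f x) = F x) (hne : ∀ x ∈ s, f x ≠ x) : p ∣ ∑ x ∈ s, F x := by
  classical
  have h1 := sum_modEq s f hfs hfp F hF
  rw [filter_false_of_mem hne, sum_empty] at h1
  exact (Nat.modEq_zero_iff_dvd).1 h1

/-- The group of linear characters. -/
def Lin (P : Type) [Group P] : Type := P →* ℂˣ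

namespace Lin

variable {P : Type} [Group P]

noncomputable instance : CommGroup (Lin P) := inferInstanceAs (CommGroup (P →* ℂˣ))

instance : FunLike (Lin P) P ℂˣ := inferInstanceAs (FunLike (P →* ℂˣ) P ℂˣ)

instance : MonoidHomClass (Lin P) P ℂˣ := inferInstanceAs (MonoidHomClass (P →* ℂˣ) P ℂˣ)

noncomputable instance [Finite P] : Fintype (Lin P) := @Fintype.ofFinite (P →* ℂˣ) _

theorem mul_apply (μ ν : Lin P) (x : P) : (μ * ν) x = μ x * ν x := rfl

theorem one_apply (x : P) : (1 : Lin P) x = 1 := rfl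

theorem inv_apply (μ : Lin P) (x : P) : μ⁻¹ x = (μ x)⁻¹ := rfl

theorem pow_apply (μ : Lin P) (n : ℕ) (x : P) : (μ ^ n) x = μ x ^ n := by
  induction n with
  | zero => rw [pow_zero, pow_zero, one_apply]
  | succ n ih => rw [pow_succ, pow_succ, mul_apply, ih]

theorem ext {μ ν : Lin P} (h : ∀ x, μ x = ν x) : μ = ν := MonoidHom.ext h

end Lin

open Classical in
/-- The multiplicity of the linear character `μ` in `χ`. -/
noncomputable def mlt {P : Type} [Group P] [Fintype P] (χ : P → ℂ) (μ : Lin P) : ℕ :=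
  if h : ∃ k : ℕ, (Fintype.card P : ℂ)⁻¹ * ∑ x, χ x * (((μ x)⁻¹ : ℂˣ) : ℂ) = k then h.choose else 0

section

variable {P : Type} [Group P] [Fintype P]

theorem mlt_spec {χ : P → ℂ} (h : IsCharacter χ) (μ : Lin P) :
    ((mlt χ μ : ℕ) : ℂ) = (Fintype.card P : ℂ)⁻¹ * ∑ x, χ x * (((μ x)⁻¹ : ℂˣ) : ℂ) := by
  have h1 : ∃ k : ℕ, (Fintype.card P : ℂ)⁻¹ * ∑ x, χ x * (((μ x)⁻¹ : ℂˣ) : ℂ) = k :=
    (h.twist (MonoidHom.mk' (fun x => (μ x)⁻¹) fun x y => by rw [map_mul, mul_inv])).avg
  unfold mlt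
  rw [dif_pos h1]
  exact h1.choose_spec.symm

theorem mlt_congr {χ χ' : P → ℂ} {μ μ' : Lin P}
    (h : ∑ x, χ x * (((μ x)⁻¹ : ℂˣ) : ℂ) = ∑ x, χ' x * (((μ' x)⁻¹ : ℂˣ) : ℂ)) :
    mlt χ μ = mlt χ' μ' := by
  unfold mlt
  rw [h]

theorem mlt_pow {χ : P → ℂ} {k : ℕ} (hk : (Nat.card P).Coprime k)
    (h : ∀ x, χ (x ^ k) = χ x) (μ : Lin P) : mlt χ (μ ^ k) = mlt χ μ := by
  apply mlt_congr
  refine Fintype.sum_equiv (powCoprime hk) _ _ fun x => ?_
  rw [powCoprime_apply, h, map_pow, Lin.pow_apply]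

/-- The linear characters `ω` with `ω ^ (p^j) = 1`. -/
noncomputable def Om (P : Type) [Group P] [Finite P] (p j : ℕ) : Finset (Lin P) :=
  open Classical in univ.filter fun ω => ω ^ (p ^ j) = 1

theorem mem_Om {p j : ℕ} {ω : Lin P} : ω ∈ Om P p j ↔ ω ^ (p ^ j) = 1 := by
  unfold Om
  simp

omit [Group P] [Fintype P] in
theorem coprime_one_add {p e b : ℕ} (hp : p.Prime) (hb : 2 ≤ b) (hP : Nat.card P = p ^ e) :
    (Nat.card P).Coprime (1 + p ^ (b - 1)) := by
  rw [hP]
  apply Nat.Coprime.pow_left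
  rw [hp.coprime_iff_not_dvd]
  intro hd
  have h1 : p ∣ p ^ (b - 1) := dvd_pow_self p (by omega)
  have h2 := (Nat.dvd_add_left h1).1 hd
  exact hp.one_lt.not_ge (Nat.le_of_dvd one_pos h2)

/-- Cosets of nontrivial level contribute zero. -/
theorem dvd_coset {p e a : ℕ} [hp : Fact p.Prime] (hP : Nat.card P = p ^ e) (ha : 2 ≤ a)
    {χ : P → ℂ} (hgal : ∀ b, a ≤ b → ∀ x, χ (x ^ (1 + p ^ (b - 1))) = χ x)
    {ν : Lin P} (hν : ν ^ (p ^ (a - 1)) ≠ 1) : p ∣ ∑ ω ∈ Om P p (a - 1), mlt χ (ν * ω) := by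
  classical
  have hpe : ν ^ (p ^ e) = 1 := by
    apply Lin.ext
    intro x
    rw [Lin.pow_apply, ← map_pow, ← hP, pow_card_eq_one', map_one, Lin.one_apply]
  have hex : ∃ b, ν ^ (p ^ b) = 1 := ⟨e, hpe⟩
  set b := Nat.find hex with hb
  have hb1 : ν ^ (p ^ b) = 1 := Nat.find_spec hex
  have hmono : ∀ {i j : ℕ}, i ≤ j → ν ^ (p ^ i) = 1 → ν ^ (p ^ j) = 1 := by
    intro i j hij h
    obtain ⟨k, rfl⟩ := Nat.exists_eq_add_of_le hij
    rw [pow_add, pow_mul, h, one_pow]
  have hab : a ≤ b := by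
    by_contra hlt
    exact hν (hmono (by omega) hb1)
  have hb2 : ν ^ (p ^ (b - 1)) ≠ 1 := Nat.find_min hex (by omega)
  have hbb : p ^ b = p ^ (b - 1) * p := by rw [← pow_succ]; congr 1; omega
  have hκ : (ν ^ (p ^ (b - 1))) ^ p = 1 := by rw [← pow_mul, ← hbb, hb1]
  refine dvd_sum _ (fun ω => ω * ν ^ (p ^ (b - 1))) ?_ ?_ _ ?_ ?_
  · intro ω hω
    rw [mem_Om] at hω ⊢
    rw [mul_pow, hω, one_mul]
    have h1 : p ^ (a - 1) = p * p ^ (a - 2) := by rw [← pow_succ']; congr 1; omega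
    rw [h1, pow_mul, hκ, one_pow]
  · intro ω _
    have h1 : ∀ k, (fun ω => ω * ν ^ (p ^ (b - 1)))^[k] ω = ω * (ν ^ (p ^ (b - 1))) ^ k := by
      intro k
      induction k with
      | zero => simp
      | succ k ih => rw [Function.iterate_succ_apply', ih, pow_succ, mul_assoc]
    rw [h1, hκ, mul_one]
  · intro ω hω
    rw [mem_Om] at hω
    have h1 : ν * (ω * ν ^ (p ^ (b - 1))) = (ν * ω) ^ (1 + p ^ (b - 1)) := by
      have h2 : ω ^ (p ^ (b - 1)) = 1 := by
        obtain ⟨k, hk⟩ := Nat.exists_eq_add_of_le (show a - 1 ≤ b - 1 by omega)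
        rw [hk, pow_add, pow_mul, hω, one_pow]
      rw [pow_add, pow_one, mul_pow, h2, mul_one, mul_assoc]
    rw [h1]
    exact mlt_pow (coprime_one_add hp.out (by omega) hP) (hgal b hab) _
  · intro ω _ h
    exact hb2 (mul_eq_left.1 h)

/-- The sum over `Ω_b` does not depend on `b ≥ a - 1`. -/
theorem sum_Om {p e a : ℕ} [hp : Fact p.Prime] (hP : Nat.card P = p ^ e) (ha : 2 ≤ a)
    {χ : P → ℂ} (hgal : ∀ b, a ≤ b → ∀ x, χ (x ^ (1 + p ^ (b - 1))) = χ x) (k : ℕ) :
    ∑ ω ∈ Om P p (a - 1 + k), mlt χ ω ≡ ∑ ω ∈ Om P p (a - 1), mlt χ ω [MOD p] := by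
  classical
  induction k with
  | zero => exact Nat.ModEq.refl _
  | succ k ih =>
    refine Nat.ModEq.trans ?_ ih
    set b := a - 1 + (k + 1) with hb
    have hb1 : b - 1 = a - 1 + k := by omega
    have hb2 : 2 ≤ b := by omega
    have hbb : p ^ b = p ^ (b - 1) * p := by rw [← pow_succ, Nat.sub_add_cancel (by omega)]
    have h1 := sum_modEq (p := p) (Om P p b) (fun ω => ω * ω ^ (p ^ (b - 1))) ?_ ?_ (mlt χ) ?_
    · refine h1.trans ?_
      have h5 : (Om P p b).filter (fun ω => ω * ω ^ (p ^ (b - 1)) = ω) = Om P p (a - 1 + k) := by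
        ext ω
        rw [mem_filter, mem_Om, mem_Om, mul_eq_left, ← hb1]
        constructor
        · exact fun h => h.2
        · intro h
          refine ⟨?_, h⟩
          rw [hbb, pow_mul, h, one_pow]
      rw [h5]
    · intro ω hω
      rw [mem_Om] at hω ⊢
      rw [mul_pow, hω, one_mul, ← pow_mul, mul_comm, pow_mul, hω, one_pow]
    · intro ω hω
      rw [mem_Om] at hω
      have h2 : ∀ j, (fun ω : Lin P => ω * ω ^ (p ^ (b - 1)))^[j] ω =
          ω * (ω ^ (p ^ (b - 1))) ^ j := by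
        intro j
        induction j with
        | zero => simp
        | succ j ih =>
          rw [Function.iterate_succ_apply', ih]
          have h3 : (ω * (ω ^ (p ^ (b - 1))) ^ j) ^ (p ^ (b - 1)) = ω ^ (p ^ (b - 1)) := by
            rw [mul_pow, ← pow_mul, ← pow_mul, ← mul_assoc]
            have h4 : p ^ (b - 1) * j * p ^ (b - 1) = p ^ b * (p ^ (b - 2) * j) := by
              have e1 : p ^ (b - 1) = p ^ (b - 2) * p := by rw [← pow_succ]; congr 1; omega
              rw [hbb]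
              nth_rewrite 2 [e1]
              ring
            rw [h4, pow_mul ω (p ^ b), hω, one_pow, mul_one]
          rw [h3, pow_succ, mul_assoc]
      rw [h2, ← pow_mul, ← hbb, hω, mul_one]
    · intro ω _
      have h2 : ω * ω ^ (p ^ (b - 1)) = ω ^ (1 + p ^ (b - 1)) := by rw [pow_add, pow_one]
      rw [h2]
      exact mlt_pow (coprime_one_add hp.out hb2 hP) (hgal b (by omega)) _

theorem Om_eq_univ {p e k : ℕ} (hP : Nat.card P = p ^ e) (hk : e ≤ k) : Om P p k = univ := by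
  classical
  ext ω
  rw [mem_Om]
  refine ⟨fun _ => mem_univ _, fun _ => ?_⟩
  obtain ⟨j, rfl⟩ := Nat.exists_eq_add_of_le hk
  apply Lin.ext
  intro x
  rw [Lin.pow_apply, ← map_pow, pow_add, pow_mul, ← hP, pow_card_eq_one', one_pow, map_one,
    Lin.one_apply]

end

end Pool.Agent.Lib.MP_1aae89_al
end

section
/-!
# The linear constituents of a character of a `p`-group
-/
namespace Pool.Agent.Lib.MP_1aae89_al

open Finset

section

variable {P : Type} [Group P] [Fintype P]

/-- A normal subgroup of index `p`: the quotient has characters separating it. -/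
theorem exists_ne_one {p : ℕ} [hp : Fact p.Prime] (R : Subgroup P) [R.Normal]
    (hR : R.index = p) {x : P} (hx : x ∉ R) :
    ∃ ε : Lin P, ε x ≠ 1 ∧ ∀ r ∈ R, ε r = 1 := by
  have h1 : Nat.card (P ⧸ R) = p := hR
  have hcyc : IsCyclic (P ⧸ R) := isCyclic_of_prime_card h1
  let _ : CommGroup (P ⧸ R) := IsCyclic.commGroup
  have hfin : Finite (P ⧸ R) := inferInstance
  have hx1 : (QuotientGroup.mk x : P ⧸ R) ≠ 1 := by
    rw [Ne, QuotientGroup.eq_one_iff]; exact hx
  obtain ⟨φ, hφ⟩ := CommGroup.exists_apply_ne_one_of_hasEnoughRootsOfUnity (P ⧸ R) ℂ hx1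
  let ε : P →* ℂˣ := MonoidHom.mk' (fun y => φ (QuotientGroup.mk y)) fun y z => by
    rw [QuotientGroup.mk_mul]; exact map_mul φ _ _
  refine ⟨ε, hφ, fun r hr => ?_⟩
  show φ (QuotientGroup.mk r) = 1
  rw [(QuotientGroup.eq_one_iff r).2 hr]
  exact map_one φ

omit [Fintype P] in
theorem pow_mem_of_index {p : ℕ} (R : Subgroup P) [R.Normal] (hR : R.index = p) (x : P) :
    x ^ p ∈ R := by
  rw [← QuotientGroup.eq_one_iff, QuotientGroup.mk_pow]
  have h1 : Nat.card (P ⧸ R) = p := hR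
  rw [← h1]
  exact pow_card_eq_one'

/-- A proper subgroup of a `p`-group lies in a normal subgroup of index `p`. -/
theorem exists_normal {p e : ℕ} [hp : Fact p.Prime] (hP : Nat.card P = p ^ e) (Q : Subgroup P)
    (hQ : Q ≠ ⊤) : ∃ R : Subgroup P, R.Normal ∧ R.index = p ∧ Q ≤ R := by
  have h1 : Nat.card Q ∣ p ^ e := by rw [← hP]; exact Subgroup.card_subgroup_dvd_card Q
  obtain ⟨n, hn, hQn⟩ := (Nat.dvd_prime_pow hp.out).1 h1
  have hne : n ≠ e := by
    rintro rfl
    exact hQ (Subgroup.eq_top_of_card_eq Q (hQn.trans hP.symm))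
  have h2 : p ^ (e - 1) ∣ Nat.card P := by rw [hP]; exact pow_dvd_pow p (by omega)
  obtain ⟨R, hR, hQR⟩ := Sylow.exists_subgroup_card_pow_prime_le p h2 Q hQn (by omega)
  have h3 : R.index = p := by
    have h4 := R.card_mul_index
    rw [hR, hP] at h4
    have h5 : p ^ e = p ^ (e - 1) * p := by rw [← pow_succ, Nat.sub_add_cancel (by omega)]
    rw [h5] at h4
    exact Nat.eq_of_mul_eq_mul_left (pow_pos hp.out.pos _) h4
  refine ⟨R, ?_, h3, hQR⟩
  apply Subgroup.normal_of_index_eq_minFac_card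
  rw [h3, hP, hp.out.pow_minFac (by omega)]

/-- A nontrivial linear character of order `p` trivial on a given proper subgroup. -/
theorem exists_eps {p e : ℕ} [hp : Fact p.Prime] (hP : Nat.card P = p ^ e) (Q : Subgroup P)
    (hQ : Q ≠ ⊤) : ∃ ε : Lin P, ε ≠ 1 ∧ ε ^ p = 1 ∧ ∀ r ∈ Q, ε r = 1 := by
  obtain ⟨R, hRn, hRi, hQR⟩ := exists_normal hP Q hQ
  have hRt : R ≠ ⊤ := by
    rintro rfl
    rw [Subgroup.index_top] at hRi
    exact hp.out.one_lt.ne hRi
  obtain ⟨x, hx⟩ : ∃ x, x ∉ R := by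
    by_contra h
    push Not at h
    exact hRt ((Subgroup.eq_top_iff' R).2 h)
  obtain ⟨ε, h1, h2⟩ := exists_ne_one R hRi hx
  refine ⟨ε, ?_, ?_, fun r hr => h2 r (hQR hr)⟩
  · rintro rfl
    exact h1 (Lin.one_apply x)
  · apply Lin.ext
    intro y
    rw [Lin.pow_apply, ← map_pow, h2 _ (pow_mem_of_index R hRi y), Lin.one_apply]

/-- Extension of an invariant linear character. -/
theorem exists_ext {p : ℕ} [hp : Fact p.Prime] (R : Subgroup P) [hRn : R.Normal]
    (hR : R.index = p) (ν : Lin R)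
    (hν : ∀ (x : P) (r : R), ν ⟨x⁻¹ * r * x, by
      simpa using hRn.conj_mem r r.2 x⁻¹⟩ = ν r) :
    ∃ μ : Lin P, ∀ r : R, μ r = ν r := by
  let ν' : R →* ℂˣ := ν
  let K : Subgroup P := ν'.ker.map R.subtype
  have hK : ∀ x : P, x ∈ K ↔ ∃ h : x ∈ R, ν ⟨x, h⟩ = 1 := by
    intro x
    constructor
    · rintro ⟨r, hr, rfl⟩
      exact ⟨r.2, hr⟩
    · rintro ⟨h, hx⟩
      exact ⟨⟨x, h⟩, hx, rfl⟩
  have hKn : K.Normal := by
    refine ⟨fun x hx g => ?_⟩
    obtain ⟨h, hx1⟩ := (hK x).1 hx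
    refine (hK _).2 ⟨hRn.conj_mem x h g, ?_⟩
    have h2 := hν g⁻¹ ⟨x, h⟩
    simp only [inv_inv] at h2
    rw [← hx1, ← h2]
  have hKR : K ≤ R := fun x hx => ((hK x).1 hx).1
  -- the quotient is commutative
  let f : P ⧸ K →* P ⧸ R := QuotientGroup.map K R (MonoidHom.id P) hKR
  have hcyc : IsCyclic (P ⧸ R) := isCyclic_of_prime_card (show Nat.card (P ⧸ R) = p from hR)
  have hcomm : ∀ x y : P ⧸ K, x * y = y * x := by
    have hker : f.ker ≤ Subgroup.center (P ⧸ K) := by
      intro z hz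
      obtain ⟨x, rfl⟩ := QuotientGroup.mk_surjective z
      have hx : x ∈ R := by
        rw [MonoidHom.mem_ker] at hz
        exact (QuotientGroup.eq_one_iff x).1 hz
      rw [Subgroup.mem_center_iff]
      intro w
      obtain ⟨y, rfl⟩ := QuotientGroup.mk_surjective w
      rw [← QuotientGroup.mk_mul, ← QuotientGroup.mk_mul, QuotientGroup.eq]
      rw [hK]
      have e1 : (y * x)⁻¹ * (x * y) = x⁻¹ * (y⁻¹ * x * y) := by group
      have h3 : y⁻¹ * x * y ∈ R := by simpa using hRn.conj_mem x hx y⁻¹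
      rw [e1]
      refine ⟨R.mul_mem (R.inv_mem hx) h3, ?_⟩
      have e2 : (⟨x⁻¹ * (y⁻¹ * x * y), R.mul_mem (R.inv_mem hx) h3⟩ : R) =
          (⟨x, hx⟩ : R)⁻¹ * ⟨y⁻¹ * x * y, h3⟩ := rfl
      rw [e2, map_mul, map_inv, hν y ⟨x, hx⟩, inv_mul_cancel]
    have h4 := MonoidHom.isMulCommutative_of_isCyclic_of_ker_le_center f hker
    exact h4.is_comm.comm
  let _ : CommGroup (P ⧸ K) := { (inferInstance : Group (P ⧸ K)) with mul_comm := hcomm }
  let S : Subgroup (P ⧸ K) := R.map (QuotientGroup.mk' K)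
  let g : R →* S := (QuotientGroup.mk' K).subgroupMap R
  have hg : Function.Surjective g := (QuotientGroup.mk' K).subgroupMap_surjective R
  have hker : g.ker ≤ ν'.ker := by
    intro r hr
    rw [MonoidHom.mem_ker] at hr ⊢
    have h5 : (QuotientGroup.mk (r : P) : P ⧸ K) = 1 := congrArg Subtype.val hr
    rw [QuotientGroup.eq_one_iff, hK] at h5
    exact h5.2
  let νb : S →* ℂˣ := MonoidHom.liftOfSurjective g hg ⟨ν', hker⟩
  have hνb : ∀ r : R, νb (g r) = ν r := fun r =>
    MonoidHom.liftOfRightInverse_comp_apply g _ (Function.rightInverse_surjInv hg) ⟨ν', hker⟩ r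
  have hfin : Finite (P ⧸ K) := inferInstance
  obtain ⟨μ', hμ'⟩ := MonoidHom.domRestrict_surjective ℂ S νb
  let μ : P →* ℂˣ := MonoidHom.mk' (fun y => μ' (QuotientGroup.mk y)) fun y z => by
    rw [QuotientGroup.mk_mul]; exact map_mul μ' _ _
  refine ⟨μ, fun r => ?_⟩
  rw [← hνb r, ← hμ']
  rfl

/-- The linear characters trivial on `R`. -/
noncomputable def Ann (R : Subgroup P) : Finset (Lin P) :=
  open Classical in univ.filter fun ε => ∀ r ∈ R, ε r = 1

theorem mem_Ann {R : Subgroup P} {ε : Lin P} : ε ∈ Ann R ↔ ∀ r ∈ R, ε r = 1 := by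
  unfold Ann
  simp

theorem card_Ann {p : ℕ} [hp : Fact p.Prime] (R : Subgroup P) [R.Normal] (hR : R.index = p) :
    #(Ann R) = p := by
  classical
  have h1 : Nat.card (P ⧸ R) = p := hR
  have hcyc : IsCyclic (P ⧸ R) := isCyclic_of_prime_card h1
  let _ : CommGroup (P ⧸ R) := IsCyclic.commGroup
  have hfin : Finite (P ⧸ R) := inferInstance
  have h2 := CommGroup.card_monoidHom_of_hasEnoughRootsOfUnity (P ⧸ R) ℂ
  have h3 : Nat.card {ε : Lin P // ∀ r ∈ R, ε r = 1} = Nat.card ((P ⧸ R) →* ℂˣ) := by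
    refine Nat.card_congr ⟨fun ε => QuotientGroup.lift R (ε.1 : P →* ℂˣ) fun r hr => ε.2 r hr,
      fun φ => ⟨(φ.comp (QuotientGroup.mk' R) : P →* ℂˣ), fun r hr => ?_⟩, ?_, ?_⟩
    · show φ (QuotientGroup.mk r) = 1
      rw [(QuotientGroup.eq_one_iff r).2 hr]
      exact map_one φ
    · intro ε
      apply Subtype.ext
      apply Lin.ext
      intro x
      rfl
    · intro φ
      refine MonoidHom.ext fun x => ?_
      obtain ⟨y, rfl⟩ := QuotientGroup.mk_surjective x
      rfl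
  have h4 : #(Ann R) = Nat.card {ε : Lin P // ∀ r ∈ R, ε r = 1} := by
    rw [Nat.card_eq_fintype_card, Fintype.card_subtype]
    unfold Ann
    congr
  rw [h4, h3, h2, h1]

theorem sum_Ann {p : ℕ} [hp : Fact p.Prime] (R : Subgroup P) [R.Normal] (hR : R.index = p)
    (x : P) [Decidable (x ∈ R)] :
    ∑ ε ∈ Ann R, (((ε x)⁻¹ : ℂˣ) : ℂ) = if x ∈ R then (p : ℂ) else 0 := by
  split_ifs with hx
  · have h1 : ∀ ε ∈ Ann R, (((ε x)⁻¹ : ℂˣ) : ℂ) = 1 := by
      intro ε hε
      rw [mem_Ann.1 hε x hx]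
      simp
    rw [sum_congr rfl h1, sum_const, card_Ann R hR]
    simp
  · obtain ⟨δ, h1, h2⟩ := exists_ne_one R hR hx
    have hδ : δ ∈ Ann R := mem_Ann.2 h2
    have h3 : ∑ ε ∈ Ann R, (((ε x)⁻¹ : ℂˣ) : ℂ) =
        (((δ x)⁻¹ : ℂˣ) : ℂ) * ∑ ε ∈ Ann R, (((ε x)⁻¹ : ℂˣ) : ℂ) := by
      rw [mul_sum]
      refine sum_nbij' (fun ε => δ⁻¹ * ε) (fun ε => δ * ε) ?_ ?_ ?_ ?_ ?_
      · intro ε hε
        rw [mem_Ann] at hε ⊢
        intro r hr
        rw [Lin.mul_apply, Lin.inv_apply, hε r hr, h2 r hr, inv_one, one_mul]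
      · intro ε hε
        rw [mem_Ann] at hε ⊢
        intro r hr
        rw [Lin.mul_apply, hε r hr, h2 r hr, one_mul]
      · intro ε _; exact mul_inv_cancel_left δ ε
      · intro ε _; exact inv_mul_cancel_left δ ε
      · intro ε _
        rw [Lin.mul_apply, Lin.inv_apply, mul_inv, inv_inv, ← Units.val_mul,
          inv_mul_cancel_left]
    have h4 : (1 - (((δ x)⁻¹ : ℂˣ) : ℂ)) * ∑ ε ∈ Ann R, (((ε x)⁻¹ : ℂˣ) : ℂ) = 0 := by
      rw [sub_mul, one_mul, ← h3, sub_self]
    rcases mul_eq_zero.1 h4 with h5 | h5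
    · exfalso
      apply h1
      have h6 : (((δ x)⁻¹ : ℂˣ) : ℂ) = ((1 : ℂˣ) : ℂ) := by
        rw [Units.val_one]; exact (sub_eq_zero.1 h5).symm
      exact inv_eq_one.1 (Units.ext h6)
    · exact h5

open Classical in
/-- Multiplicities of the extensions of an invariant linear character. -/
theorem mlt_restrict {p : ℕ} [hp : Fact p.Prime] (R : Subgroup P) [hRn : R.Normal]
    (hR : R.index = p) {χ : P → ℂ} (hχ : IsCharacter χ) (ν : Lin R)
    (hν : ∀ (x : P) (r : R), ν ⟨x⁻¹ * r * x, by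
      simpa using hRn.conj_mem r r.2 x⁻¹⟩ = ν r) :
    ∑ μ ∈ univ.filter (fun μ : Lin P => ∀ r : R, μ r = ν r), mlt χ μ =
      mlt (fun r : R => χ r) ν := by
  obtain ⟨μ0, hμ0⟩ := exists_ext R hR ν hν
  have h1 : ∑ μ ∈ univ.filter (fun μ : Lin P => ∀ r : R, μ r = ν r), mlt χ μ =
      ∑ ε ∈ Ann R, mlt χ (μ0 * ε) := by
    refine sum_nbij' (fun μ => μ0⁻¹ * μ) (fun ε => μ0 * ε) ?_ ?_ ?_ ?_ ?_
    · intro μ hμ
      rw [mem_filter] at hμ
      rw [mem_Ann]
      intro r hr
      rw [Lin.mul_apply, Lin.inv_apply, hμ.2 ⟨r, hr⟩, hμ0 ⟨r, hr⟩, inv_mul_cancel]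
    · intro ε hε
      rw [mem_Ann] at hε
      rw [mem_filter]
      refine ⟨mem_univ _, fun r => ?_⟩
      rw [Lin.mul_apply, hμ0, hε r r.2, mul_one]
    · intro μ _; exact mul_inv_cancel_left μ0 μ
    · intro ε _; exact inv_mul_cancel_left μ0 ε
    · intro μ _
      rw [mul_inv_cancel_left]
  rw [h1]
  have h2 : ((∑ ε ∈ Ann R, mlt χ (μ0 * ε) : ℕ) : ℂ) = ((mlt (fun r : R => χ r) ν : ℕ) : ℂ) := by
    have hχR : IsCharacter (fun r : R => χ r) := hχ.comp R.subtype
    rw [Nat.cast_sum, mlt_spec hχR]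
    have h3 : ∀ ε ∈ Ann R, ((mlt χ (μ0 * ε) : ℕ) : ℂ) = (Fintype.card P : ℂ)⁻¹ *
        ∑ x, (χ x * (((μ0 x)⁻¹ : ℂˣ) : ℂ)) * (((ε x)⁻¹ : ℂˣ) : ℂ) := by
      intro ε _
      rw [mlt_spec hχ]
      congr 1
      refine sum_congr rfl fun x _ => ?_
      rw [Lin.mul_apply, mul_inv, Units.val_mul, mul_assoc]
    rw [sum_congr rfl h3, ← mul_sum, sum_comm]
    have h4 : ∀ x : P, ∑ ε ∈ Ann R, (χ x * (((μ0 x)⁻¹ : ℂˣ) : ℂ)) * (((ε x)⁻¹ : ℂˣ) : ℂ) =
        if x ∈ R then (p : ℂ) * (χ x * (((μ0 x)⁻¹ : ℂˣ) : ℂ)) else 0 := by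
      intro x
      rw [← mul_sum, sum_Ann R hR x]
      split_ifs
      · ring
      · ring
    rw [sum_congr rfl fun x _ => h4 x, ← sum_filter, ← mul_sum]
    have h5 : ∑ x ∈ univ.filter (fun x => x ∈ R), χ x * (((μ0 x)⁻¹ : ℂˣ) : ℂ) =
        ∑ r : R, χ r * (((ν r)⁻¹ : ℂˣ) : ℂ) := by
      rw [sum_subtype (p := fun x => x ∈ R) _ (fun x => by simp)
        (fun x => χ x * (((μ0 x)⁻¹ : ℂˣ) : ℂ))]
      exact sum_congr rfl fun r _ => by rw [hμ0]
    rw [h5, ← mul_assoc]
    congr 1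
    have h6 := R.card_mul_index
    rw [hR, Nat.card_eq_fintype_card, Nat.card_eq_fintype_card] at h6
    have h7 : (p : ℂ) ≠ 0 := by exact_mod_cast hp.out.ne_zero
    have h8 : (Fintype.card R : ℂ) ≠ 0 := by exact_mod_cast Fintype.card_ne_zero
    rw [← h6]
    push_cast
    field_simp
  exact_mod_cast h2

end

/-- The conjugate of a linear character of a normal subgroup. -/
def cj {P : Type} [Group P] (R : Subgroup P) [hRn : R.Normal] (x : P) (ν : Lin R) : Lin R :=
  (MonoidHom.mk' (fun r : R => ν ⟨x⁻¹ * r * x, by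
    simpa using hRn.conj_mem r r.2 x⁻¹⟩) fun r s => by
      rw [← map_mul]
      congr 1
      apply Subtype.ext
      show x⁻¹ * (r * s : P) * x = (x⁻¹ * r * x) * (x⁻¹ * s * x)
      group : R →* ℂˣ)

theorem cj_apply {P : Type} [Group P] (R : Subgroup P) [hRn : R.Normal] (x : P) (ν : Lin R)
    (r : R) : cj R x ν r = ν ⟨x⁻¹ * r * x, by
      simpa using hRn.conj_mem r r.2 x⁻¹⟩ := rfl

theorem cj_iterate {P : Type} [Group P] (R : Subgroup P) [hRn : R.Normal] (x : P) (ν : Lin R)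
    (k : ℕ) : (cj R x)^[k] ν = cj R (x ^ k) ν := by
  induction k with
  | zero =>
    apply Lin.ext
    intro r
    show ν r = _
    rw [cj_apply]
    congr 1
    apply Subtype.ext
    simp
  | succ k ih =>
    rw [Function.iterate_succ_apply', ih]
    apply Lin.ext
    intro r
    rw [cj_apply, cj_apply, cj_apply]
    congr 1
    apply Subtype.ext
    show (x ^ k)⁻¹ * (x⁻¹ * r * x) * x ^ k = (x ^ (k + 1))⁻¹ * r * x ^ (k + 1)
    rw [pow_succ']
    group

theorem cj_of_mem {P : Type} [Group P] (R : Subgroup P) [hRn : R.Normal] {x : P} (hx : x ∈ R)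
    (ν : Lin R) : cj R x ν = ν := by
  apply Lin.ext
  intro r
  rw [cj_apply]
  have h1 : (⟨x⁻¹ * r * x, by simpa using hRn.conj_mem r r.2 x⁻¹⟩ : R) =
      (⟨x, hx⟩ : R)⁻¹ * r * ⟨x, hx⟩ := rfl
  rw [h1, map_mul, map_mul, map_inv, mul_comm, mul_inv_cancel_left]

theorem cj_mul {P : Type} [Group P] (R : Subgroup P) [hRn : R.Normal] (x y : P) (ν : Lin R) :
    cj R (x * y) ν = cj R x (cj R y ν) := by
  apply Lin.ext
  intro r
  rw [cj_apply, cj_apply, cj_apply]
  congr 1
  apply Subtype.ext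
  show (x * y)⁻¹ * r * (x * y) = y⁻¹ * (x⁻¹ * r * x) * y
  group

theorem mlt_cj {P : Type} [Group P] (R : Subgroup P) [hRn : R.Normal] [Fintype R] {χ : P → ℂ}
    (hχ : IsCharacter χ) (x : P) (ν : Lin R) :
    mlt (fun r : R => χ r) (cj R x ν) = mlt (fun r : R => χ r) ν := by
  apply mlt_congr
  let e : R ≃ R :=
    { toFun := fun r => ⟨x⁻¹ * r * x, by simpa using hRn.conj_mem r r.2 x⁻¹⟩
      invFun := fun r => ⟨x * r * x⁻¹, hRn.conj_mem r r.2 x⟩
      left_inv := fun r => by apply Subtype.ext; show x * (x⁻¹ * r * x) * x⁻¹ = r; group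
      right_inv := fun r => by apply Subtype.ext; show x⁻¹ * (x * r * x⁻¹) * x = r; group }
  refine Fintype.sum_equiv e _ _ fun r => ?_
  have h1 : χ ((e r : R) : P) = χ r := hχ.conj x r
  rw [h1]
  rfl

/-- The number of linear constituents is congruent to the degree modulo `p`. -/
theorem deg {p : ℕ} [hp : Fact p.Prime] (e : ℕ) : ∀ (P : Type) [Group P] [Fintype P],
    Nat.card P = p ^ e → ∀ χ : P → ℂ, IsCharacter χ → ∀ k : ℕ, χ 1 = k →
    ∑ μ : Lin P, mlt χ μ ≡ k [MOD p] := by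
  classical
  induction e with
  | zero =>
    intro P _ _ hP χ hχ k hk
    rw [pow_zero] at hP
    have hsub : Subsingleton P := (Nat.card_eq_one_iff_unique.1 hP).1
    have hL : ∀ μ : Lin P, μ = 1 := fun μ => Lin.ext fun x => by
      rw [Subsingleton.elim x 1, map_one, Lin.one_apply]
    have h1 : (univ : Finset (Lin P)) = {1} := by
      ext μ
      simp [hL μ]
    rw [h1, sum_singleton]
    have h2 : ((mlt χ (1 : Lin P) : ℕ) : ℂ) = k := by
      rw [mlt_spec hχ, ← Nat.card_eq_fintype_card, hP]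
      have h3 : (univ : Finset P) = {1} := by
        ext x
        simp [Subsingleton.elim x 1]
      rw [h3, sum_singleton, Lin.one_apply, hk]
      simp
    rw [show mlt χ (1 : Lin P) = k by exact_mod_cast h2]
  | succ e ih =>
    intro P _ _ hP χ hχ k hk
    have hbot : (⊥ : Subgroup P) ≠ ⊤ := by
      intro h
      have h1 : Nat.card (⊥ : Subgroup P) = Nat.card (⊤ : Subgroup P) := by rw [h]
      rw [Subgroup.card_bot, Subgroup.card_top, hP] at h1
      exact (Nat.one_lt_pow (Nat.succ_ne_zero e) hp.out.one_lt).ne h1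
    obtain ⟨R, hRn, hRi, -⟩ := exists_normal hP ⊥ hbot
    have hRt : R ≠ ⊤ := by
      rintro rfl
      rw [Subgroup.index_top] at hRi
      exact hp.out.one_lt.ne hRi
    obtain ⟨x, hx⟩ : ∃ x, x ∉ R := by
      by_contra h
      push Not at h
      exact hRt ((Subgroup.eq_top_iff' R).2 h)
    have hRc : Nat.card R = p ^ e := by
      have h1 := R.card_mul_index
      rw [hRi, hP, pow_succ] at h1
      exact Nat.eq_of_mul_eq_mul_right hp.out.pos h1
    have hχR : IsCharacter (fun r : R => χ r) := hχ.comp R.subtype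
    have h1 := ih R hRc (fun r : R => χ r) hχR k hk
    refine Nat.ModEq.trans ?_ h1
    have h2 := sum_modEq (p := p) univ (cj R x) (fun _ _ => mem_univ _) (fun ν _ => by
      rw [cj_iterate, cj_of_mem R (pow_mem_of_index R hRi x)])
      (mlt fun r : R => χ r) (fun ν _ => mlt_cj R hχ x ν)
    refine Nat.ModEq.trans (Nat.ModEq.symm ?_) h2.symm
    -- the restriction
    let res : Lin P → Lin R := fun μ => ((μ : P →* ℂˣ).comp R.subtype : R →* ℂˣ)
    have hres : ∀ (μ : Lin P) (r : R), res μ r = μ r := fun μ r => rfl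
    have hmaps : ∀ μ ∈ (univ : Finset (Lin P)), res μ ∈
        univ.filter (fun ν : Lin R => cj R x ν = ν) := by
      intro μ _
      rw [mem_filter]
      refine ⟨mem_univ _, Lin.ext fun r => ?_⟩
      rw [cj_apply, hres, hres]
      show μ (x⁻¹ * r * x) = μ r
      rw [map_mul, map_mul, map_inv, mul_comm, mul_inv_cancel_left]
    have h3 : ∑ ν ∈ univ.filter (fun ν : Lin R => cj R x ν = ν), mlt (fun r : R => χ r) ν =
        ∑ μ : Lin P, mlt χ μ := by
      rw [← sum_fiberwise_of_maps_to hmaps]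
      refine sum_congr rfl fun ν hν => ?_
      rw [mem_filter] at hν
      -- invariance under all of `P`
      let S : Subgroup P :=
        { carrier := {y | cj R y ν = ν}
          mul_mem' := fun {y z} hy hz => by
            show cj R (y * z) ν = ν
            rw [cj_mul, show cj R z ν = ν from hz]
            exact hy
          one_mem' := by
            show cj R 1 ν = ν
            exact cj_of_mem R R.one_mem ν
          inv_mem' := fun {y} hy => by
            show cj R y⁻¹ ν = ν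
            have h4 : cj R (y⁻¹ * y) ν = cj R y⁻¹ ν := by
              rw [cj_mul, show cj R y ν = ν from hy]
            rw [← h4, inv_mul_cancel]
            exact cj_of_mem R R.one_mem ν }
      have hRS : R ≤ S := fun y hy => cj_of_mem R hy ν
      have hS : S = ⊤ := by
        have h5 := Subgroup.relIndex_mul_index hRS
        rw [hRi] at h5
        have h6 : S.index ∣ p := Dvd.intro_left _ h5
        rcases (Nat.dvd_prime hp.out).1 h6 with h7 | h7
        · exact Subgroup.index_eq_one.1 h7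
        · exfalso
          rw [h7] at h5
          have h8 : R.relIndex S = 1 := Nat.eq_of_mul_eq_mul_right hp.out.pos
            (h5.trans (one_mul p).symm)
          exact hx (Subgroup.relIndex_eq_one.1 h8 hν.2)
      have hinv : ∀ (y : P) (r : R), ν ⟨y⁻¹ * r * y, by
          simpa using hRn.conj_mem r r.2 y⁻¹⟩ = ν r := by
        intro y r
        have h9 : y ∈ S := by rw [hS]; exact Subgroup.mem_top y
        have h10 : cj R y ν = ν := h9
        rw [← cj_apply, h10]
      rw [← mlt_restrict R hRi hχ ν hinv]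
      refine sum_congr ?_ fun _ _ => rfl
      ext μ
      rw [mem_filter, mem_filter]
      refine and_congr_right fun _ => ?_
      constructor
      · intro h; exact Lin.ext fun r => h r
      · intro h r; rw [← h]; rfl
    rw [h3]

end Pool.Agent.Lib.MP_1aae89_al
end

section
/-!
# Passing through a factor group which is a `p`-group
-/
set_option autoImplicit false

namespace Pool.Agent.Lib.MP_1aae89_al.BF

open Matrix Finset
open scoped Kronecker

section

variable {H : Type} [Group H] [Fintype H] {n : ℕ}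

/-- the conjugates of an idempotent with a system of imprimitivity add up to a scalar -/
theorem index_formula {r : H →* Matrix (Fin n) (Fin n) ℂ} (hr : Sch r) (hn : n ≠ 0)
    {T : Subgroup H} {E : Matrix (Fin n) (Fin n) ℂ} (hE : E * E = E) (hE0 : E ≠ 0)
    (hT : ∀ t ∈ T, r t * E = E * r t) (hT' : ∀ g ∉ T, E * r g * E = 0) :
    (n : ℂ) = T.index * E.trace ∧
      ∑ g, r g * E * r g⁻¹ = (Nat.card T : ℂ) • (1 : Matrix (Fin n) (Fin n) ℂ) := by
  classical
  have hn' : (n : ℂ) ≠ 0 := by exact_mod_cast hn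
  have h1 := avg hr hn E
  set c := (Fintype.card H : ℂ) * E.trace / n with hc
  have h2 : E * (∑ g, r g * E * r g⁻¹) * E = (Nat.card T : ℂ) • E := by
    rw [Matrix.mul_sum, Matrix.sum_mul]
    have h3 : ∀ g ∈ univ, E * (r g * E * r g⁻¹) * E = if g ∈ T then E else 0 := by
      intro g _
      by_cases hg : g ∈ T
      · rw [if_pos hg]
        calc E * (r g * E * r g⁻¹) * E = E * (r g * E) * (r g⁻¹ * E) := by
              simp only [Matrix.mul_assoc]
          _ = (E * E) * (r g * r g⁻¹) * E := by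
              rw [hT g hg, hT g⁻¹ (inv_mem hg)]
              calc E * (E * r g) * (E * r g⁻¹) = (E * E) * (r g * E) * r g⁻¹ := by
                    simp only [Matrix.mul_assoc]
                _ = (E * E) * E * r g * r g⁻¹ := by rw [hT g hg]; simp only [Matrix.mul_assoc]
                _ = (E * E) * (r g * r g⁻¹) * E := by
                    rw [mul_inv_r, Matrix.mul_one, Matrix.mul_assoc _ (r g), mul_inv_r,
                      Matrix.mul_one]
          _ = E := by rw [mul_inv_r, Matrix.mul_one, hE, hE]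
      · rw [if_neg hg]
        calc E * (r g * E * r g⁻¹) * E = (E * r g * E) * (r g⁻¹ * E) := by
              simp only [Matrix.mul_assoc]
          _ = 0 := by rw [hT' g hg, Matrix.zero_mul]
    rw [sum_congr rfl h3, ← sum_filter, sum_const, ← Nat.cast_smul_eq_nsmul ℂ]
    congr 2
    rw [Nat.card_eq_fintype_card, Fintype.card_subtype]
  have h3 : c = (Nat.card T : ℂ) := by
    rw [h1, Matrix.mul_smul, Matrix.smul_mul, Matrix.mul_one, hE] at h2
    have h4 : (c - (Nat.card T : ℂ)) • E = 0 := by rw [sub_smul, h2, sub_self]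
    rcases smul_eq_zero.1 h4 with h5 | h5
    · exact sub_eq_zero.1 h5
    · exact absurd h5 hE0
  refine ⟨?_, by rw [h1, h3]⟩
  have hT0 : (Nat.card T : ℂ) ≠ 0 := by exact_mod_cast Nat.card_pos.ne'
  have h4 : (Fintype.card H : ℂ) = (Nat.card T : ℂ) * T.index := by
    rw [← Nat.card_eq_fintype_card, ← T.card_mul_index]
    push_cast
    ring
  have h5 : (Fintype.card H : ℂ) * E.trace = (Nat.card T : ℂ) * n := by
    rw [← h3, hc, div_mul_cancel₀ _ hn']
  rw [h4, mul_assoc] at h5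
  exact (mul_left_cancel₀ hT0 h5).symm

omit [Fintype H] in
/-- an idempotent commuting with an irreducible representation is trivial -/
theorem idem_trivial {r : H →* Matrix (Fin n) (Fin n) ℂ} (hr : Sch r)
    {E : Matrix (Fin n) (Fin n) ℂ} (hE : E * E = E) (hc : ∀ g, E * r g = r g * E) :
    E = 0 ∨ E = 1 := by
  obtain ⟨c, hc⟩ := hr E hc
  by_cases h0 : E = 0
  · exact Or.inl h0
  · right
    have h1 : c • E = E := by
      conv_rhs => rw [← hE]
      conv_rhs => rw [hc]
      rw [Matrix.smul_mul, Matrix.one_mul, ← hc]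
    have h2 : (c - 1) • E = 0 := by rw [sub_smul, h1, one_smul, sub_self]
    rcases smul_eq_zero.1 h2 with h3 | h3
    · rw [hc, sub_eq_zero.1 h3, one_smul]
    · exact absurd h3 h0

end

/-- a representation in a new basis -/
def cjr {H : Type} [Group H] {n e m : ℕ} (r : H →* Matrix (Fin n) (Fin n) ℂ)
    (Q : Matrix (Fin n) (Fin e × Fin m) ℂ) (Q' : Matrix (Fin e × Fin m) (Fin n) ℂ)
    (h1 : Q * Q' = 1) (h2 : Q' * Q = 1) : H →* Matrix (Fin e × Fin m) (Fin e × Fin m) ℂ where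
  toFun g := Q' * r g * Q
  map_one' := by rw [map_one, Matrix.mul_one, h2]
  map_mul' g h := by
    calc Q' * r (g * h) * Q = Q' * r g * (Q * Q') * r h * Q := by
          rw [map_mul, h1, Matrix.mul_one]
          simp only [Matrix.mul_assoc]
      _ = Q' * r g * Q * (Q' * r h * Q) := by simp only [Matrix.mul_assoc]

/-- determinants of an isotypic component -/
theorem det_fix {p N κ : ℕ} {σ : ℂ →+* ℂ} (hG : Gd p N κ σ) {e : ℕ} (he : ¬ p ∣ e) {d : ℂ}
    (hd : d ^ N = 1) (h : σ (d ^ e) = d ^ e) : σ d = d := by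
  have hd0 : d ≠ 0 := by
    rintro rfl
    rw [zero_pow hG.hN] at hd
    exact zero_ne_one hd
  obtain ⟨a, k, hk⟩ := hG.ha
  have hκ : κ = (κ - 1) + 1 := by have := hG.one; omega
  have h1 : (d ^ (κ - 1)) ^ p ^ a = 1 := by rw [← pow_mul, hk, pow_mul, hd, one_pow]
  have h2 : (d ^ (κ - 1)) ^ e = 1 := by
    rw [map_pow, hG.hσ d hd] at h
    apply mul_right_cancel₀ (pow_ne_zero e hd0)
    rw [one_mul, ← mul_pow, ← pow_succ, ← hκ, h]
  have h3 := pow_gcd_eq_one.2 ⟨h1, h2⟩
  have h4 : (p ^ a).Coprime e := Nat.Coprime.pow_left a ((Nat.Prime.coprime_iff_not_dvd hG.pp).2 he)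
  rw [h4.gcd_eq_one, pow_one] at h3
  rw [hG.hσ d hd, hκ, pow_succ, h3, one_mul]

/-- determinants of a representation restricted to a normal subgroup, isotypic case -/
theorem det_fix' {p N κ : ℕ} {σ : ℂ →+* ℂ} (hG : Gd p N κ σ) {H : Type} [Group H] [Fintype H]
    (hHN : Fintype.card H ∣ N) {n e m : ℕ} (he : ¬ p ∣ e) {r : H →* Matrix (Fin n) (Fin n) ℂ}
    {L : Subgroup H} {r' : L →* Matrix (Fin m) (Fin m) ℂ} {Q : Matrix (Fin n) (Fin e × Fin m) ℂ}
    {Q' : Matrix (Fin e × Fin m) (Fin n) ℂ} (h1 : Q * Q' = 1) (h2 : Q' * Q = 1)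
    (h3 : ∀ l : L, r l * Q = Q * ((1 : Matrix (Fin e) (Fin e) ℂ) ⊗ₖ r' l))
    (hdet : ∀ h, σ (r h).det = (r h).det) (l : L) : σ (r' l).det = (r' l).det := by
  have h4 : Q' * r l * Q = (1 : Matrix (Fin e) (Fin e) ℂ) ⊗ₖ r' l := by
    rw [Matrix.mul_assoc, h3, ← Matrix.mul_assoc, h2, Matrix.one_mul]
  have h5 : (r l).det = (r' l).det ^ e := by
    rw [← Matrix.det_conj_of_mul_eq_one (M := Q') (M' := Q) (N := r l) h2 h1, h4,
      Matrix.det_kronecker, Matrix.det_one, one_pow, one_mul, Fintype.card_fin]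
  refine det_fix hG he ?_ (by rw [← h5]; exact hdet l)
  obtain ⟨k, hk⟩ := hHN
  have h6 : l ^ Fintype.card H = 1 := Subtype.ext (by
    rw [Subgroup.coe_pow, pow_card_eq_one]; rfl)
  rw [← Matrix.det_pow, ← map_pow, hk, pow_mul, h6, one_pow, map_one, Matrix.det_one]

/-- traces of an isotypic component -/
theorem trace_iso {H : Type} [Group H] {n e m : ℕ} {r : H →* Matrix (Fin n) (Fin n) ℂ}
    {L : Subgroup H} {r' : L →* Matrix (Fin m) (Fin m) ℂ} {Q : Matrix (Fin n) (Fin e × Fin m) ℂ}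
    {Q' : Matrix (Fin e × Fin m) (Fin n) ℂ} (h1 : Q * Q' = 1) (h2 : Q' * Q = 1)
    (h3 : ∀ l : L, r l * Q = Q * ((1 : Matrix (Fin e) (Fin e) ℂ) ⊗ₖ r' l)) (l : L) :
    (r l).trace = e * (r' l).trace := by
  have h4 : Q' * r l * Q = (1 : Matrix (Fin e) (Fin e) ℂ) ⊗ₖ r' l := by
    rw [Matrix.mul_assoc, h3, ← Matrix.mul_assoc, h2, Matrix.one_mul]
  have h5 : (Q' * r l * Q).trace = (r l).trace := by
    rw [Matrix.mul_assoc, Matrix.trace_mul_comm, Matrix.mul_assoc, h1, Matrix.mul_one]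
  rw [← h5, h4, Matrix.trace_kronecker, Matrix.trace_one, Fintype.card_fin]

/-- the element step in terms of `r` -/
theorem estep' {p N κ : ℕ} {σ : ℂ →+* ℂ} (hG : Gd p N κ σ) {H : Type} [Group H] [Fintype H]
    {n e m : ℕ} (he : ¬ p ∣ e) (hm : ¬ p ∣ m) {r : H →* Matrix (Fin n) (Fin n) ℂ}
    {L : Subgroup H} [L.Normal] {r' : L →* Matrix (Fin m) (Fin m) ℂ} (hr' : Sch r')
    {Q : Matrix (Fin n) (Fin e × Fin m) ℂ}
    {Q' : Matrix (Fin e × Fin m) (Fin n) ℂ} (h1 : Q * Q' = 1) (h2 : Q' * Q = 1)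
    (h3 : ∀ l : L, r l * Q = Q * ((1 : Matrix (Fin e) (Fin e) ℂ) ⊗ₖ r' l))
    (hdet : ∀ h, σ (r h).det = (r h).det) (hL : ∀ l : L, σ (r' l).trace = (r' l).trace)
    {o : ℕ} (ho : o ∣ κ - 1) (hoN : Fintype.card H * o ∣ N) (y : H) (hy : y ^ o ∈ L) :
    σ (r y).trace = (r y).trace := by
  have h4 : ∀ g, cjr r Q Q' h1 h2 g = Q' * r g * Q := fun g => rfl
  have h5 : ∀ g, (Q' * r g * Q).trace = (r g).trace := fun g => by
    rw [Matrix.mul_assoc, Matrix.trace_mul_comm, Matrix.mul_assoc, h1, Matrix.mul_one]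
  have h6 := estep hG he hm (cjr r Q Q' h1 h2) hr' (fun l => by
      rw [h4, Matrix.mul_assoc, h3, ← Matrix.mul_assoc, h2, Matrix.one_mul])
    (fun g => by rw [h4, Matrix.det_conj_of_mul_eq_one (M := Q') (M' := Q) (N := r g) h2 h1, hdet])
    hL ho hoN y hy
  rwa [h4, h5] at h6

theorem pstep {p NN κ : ℕ} {σ : ℂ →+* ℂ} (hG : Gd p NN κ σ) (hp1 : p ∣ κ - 1) (c : ℕ) :
    ∀ (N : Type) [Group N] [Fintype N] (L : Subgroup N) [L.Normal] (n : ℕ)
      (r : N →* Matrix (Fin n) (Fin n) ℂ), Fintype.card N = c → Sch r → ¬ p ∣ n →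
      (∀ x, σ (r x).det = (r x).det) → (∀ l : L, σ (r l).trace = (r l).trace) →
      (∀ x : N, ∃ j, x ^ p ^ j ∈ L) → Fintype.card N * p ∣ NN →
      ∀ x, σ (r x).trace = (r x).trace := by
  induction c using Nat.strong_induction_on with
  | _ c ih =>
    intro N _ _ L _ n r hc hr hpn hdet hL hpL hNN x
    have hpp := hG.pp
    have : Fact p.Prime := ⟨hpp⟩
    have hn0 : n ≠ 0 := by rintro rfl; exact hpn (dvd_zero _)
    by_cases hLt : L = ⊤
    · exact hL ⟨x, by rw [hLt]; trivial⟩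
    -- a normal subgroup of index `p`
    obtain ⟨N', hN'n, hN'i, hLN'⟩ : ∃ N' : Subgroup N, N'.Normal ∧ N'.index = p ∧ L ≤ N' := by
      classical
      have hP : IsPGroup p (N ⧸ L) := by
        intro q
        obtain ⟨y, rfl⟩ := QuotientGroup.mk_surjective q
        obtain ⟨j, hj⟩ := hpL y
        exact ⟨j, by rw [← QuotientGroup.mk_pow, QuotientGroup.eq_one_iff]; exact hj⟩
      obtain ⟨f, hf⟩ := IsPGroup.iff_card.1 hP
      have hbot : (⊥ : Subgroup (N ⧸ L)) ≠ ⊤ := by
        intro h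
        apply hLt
        rw [Subgroup.eq_top_iff']
        intro y
        have h1 : (QuotientGroup.mk y : N ⧸ L) ∈ (⊤ : Subgroup (N ⧸ L)) := trivial
        rw [← h, Subgroup.mem_bot, QuotientGroup.eq_one_iff] at h1
        exact h1
      obtain ⟨R, hRn, hRi, -⟩ := exists_normal hf ⊥ hbot
      refine ⟨R.comap (QuotientGroup.mk' L), hRn.comap _, ?_, ?_⟩
      · rw [Subgroup.index_comap_of_surjective _ (QuotientGroup.mk'_surjective L), hRi]
      · intro y hy
        rw [Subgroup.mem_comap]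
        have : QuotientGroup.mk' L y = 1 := (QuotientGroup.eq_one_iff y).2 hy
        rw [this]
        exact one_mem R
    rcases dicho r N' hn0 with ⟨e, m, r', Q, Q', hnem, hr', h1, h2, h3⟩ |
        ⟨T, E, hNT, hE, hE0, hE1, hT, hT'⟩
    · have he : ¬ p ∣ e := fun h => hpn (hnem ▸ h.mul_right m)
      have hm : ¬ p ∣ m := fun h => hpn (hnem ▸ h.mul_left e)
      have he0 : (e : ℂ) ≠ 0 := by
        have : e ≠ 0 := by rintro rfl; exact he (dvd_zero _)
        exact_mod_cast this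
      have hHN : Fintype.card N ∣ NN := (dvd_mul_right _ _).trans hNN
      have hcard : Nat.card N' * p = Nat.card N := by rw [← hN'i, N'.card_mul_index]
      have : Fintype N' := Fintype.ofFinite N'
      have hcard' : Fintype.card N' * p = Fintype.card N := by
        rw [← Nat.card_eq_fintype_card, hcard, Nat.card_eq_fintype_card]
      have hdet' := det_fix' hG hHN he h1 h2 h3 hdet
      have htr := trace_iso h1 h2 h3
      have hL' : ∀ l : (L.subgroupOf N'), σ (r' l).trace = (r' l).trace := by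
        intro l
        have h4 := hL ⟨l, Subgroup.mem_subgroupOf.1 l.2⟩
        have h5 := htr (l : N')
        have h6 : (r (l : N)).trace = (e : ℂ) * (r' l).trace := h5
        have h7 : σ (r (l : N)).trace = (r (l : N)).trace := h4
        rw [h6, map_mul, map_natCast] at h7
        exact mul_left_cancel₀ he0 h7
      have hnorm : (L.subgroupOf N').Normal := inferInstance
      have hlt : Fintype.card N' < c := by
        rw [← hc, ← hcard']
        exact lt_mul_of_one_lt_right Fintype.card_pos hpp.one_lt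
      have h4 := ih (Fintype.card N') hlt N' (L.subgroupOf N') m r' rfl hr' hm hdet' hL'
        (fun y => by
          obtain ⟨j, hj⟩ := hpL y
          exact ⟨j, Subgroup.mem_subgroupOf.2 (by rw [Subgroup.coe_pow]; exact hj)⟩)
        ((hcard'.symm ▸ dvd_refl _ : Fintype.card N' * p ∣ Fintype.card N).trans hHN)
      exact estep' hG he hm hr' h1 h2 h3 hdet h4 hp1 hNN x (pow_mem_of_index N' hN'i x)
    · exfalso
      obtain ⟨h1, -⟩ := index_formula hr hn0 hE hE0 hT hT'
      obtain ⟨k, J, J', hJ, hJ'⟩ := idem_factor E hE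
      have hk : E.trace = k := by rw [← hJ, trace_fac hJ']
      have h2 : n = T.index * k := by
        rw [hk] at h1
        exact_mod_cast h1
      have h3 : T.index ∣ p := by rw [← hN'i]; exact Subgroup.index_dvd_of_le hNT
      rcases (Nat.dvd_prime hpp).1 h3 with h4 | h4
      · rw [Subgroup.index_eq_one] at h4
        subst h4
        rcases idem_trivial hr hE (fun g => (hT g trivial).symm) with h5 | h5
        · exact hE0 h5
        · exact hE1 h5
      · rw [h4] at h2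
        exact hpn (h2 ▸ dvd_mul_right p k)

end Pool.Agent.Lib.MP_1aae89_al.BF
end
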