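import Pool.Agent.Lib.MP_1aae89_al.BF.PStep
import Pool.Agent.Lib.MP_1aae89_al.Ind
import Pool.Agent.Lib.MP_1aae89_al.Gal
import Pool.Agent.Lib.MP_1aae89_al.Cyc
import Pool.Agent.Lib.MP_1aae89_al.Main

section
/-!
# Reduction to a representation whose restrictions to normal subgroups are isotypic
-/
set_option autoImplicit false

namespace Pool.Agent.Lib.MP_1aae89_al.BF

open Matrix Finset
open scoped Kronecker

variable {M : Type} [Group M] {n : ℕ}

/-- `J J'` is an idempotent commuting with `r(W)`, with `J J' r(g) J J' = 0` outside `W` -/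
structure Pr (r : M →* Matrix (Fin n) (Fin n) ℂ) (K0 W : Subgroup M) (k : ℕ)
    (J : Matrix (Fin n) (Fin k) ℂ) (J' : Matrix (Fin k) (Fin n) ℂ) : Prop where
  le : K0 ≤ W
  k0 : k ≠ 0
  one : J' * J = 1
  com : ∀ w ∈ W, J * J' * r w = r w * (J * J')
  van : ∀ g ∉ W, J * J' * r g * (J * J') = 0

namespace Pr

variable {r : M →* Matrix (Fin n) (Fin n) ℂ} {K0 W : Subgroup M} {k : ℕ}
    {J : Matrix (Fin n) (Fin k) ℂ} {J' : Matrix (Fin k) (Fin n) ℂ}

/-- the representation of `W` -/
def rep (h : Pr r K0 W k J J') : W →* Matrix (Fin k) (Fin k) ℂ :=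
  compr (r.comp W.subtype) J J' h.one fun w => h.com w.1 w.2

theorem rep_apply (h : Pr r K0 W k J J') (w : W) : h.rep w = J' * r w * J := rfl

theorem van' (h : Pr r K0 W k J J') {g : M} (hg : g ∉ W) : J' * r g * J = 0 := by
  calc J' * r g * J = (J' * J) * J' * r g * J * (J' * J) := by
        rw [h.one, Matrix.one_mul, Matrix.mul_one]
    _ = J' * (J * J' * r g * (J * J')) * J := by simp only [Matrix.mul_assoc]
    _ = 0 := by rw [h.van g hg, Matrix.mul_zero, Matrix.zero_mul]

theorem idem (h : Pr r K0 W k J J') : (J * J') * (J * J') = J * J' := by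
  calc (J * J') * (J * J') = J * (J' * J) * J' := by simp only [Matrix.mul_assoc]
    _ = J * J' := by rw [h.one, Matrix.mul_one]

theorem ne_zero (h : Pr r K0 W k J J') : J * J' ≠ 0 := by
  intro h0
  have h1 := trace_fac h.one
  rw [h0, Matrix.trace_zero] at h1
  exact h.k0 (by exact_mod_cast h1.symm)

variable [Fintype M]

theorem sch (h : Pr r K0 W k J J') (hr : Sch r) (hn : n ≠ 0) : Sch h.rep := by
  classical
  intro T hT
  have h1 := avg hr hn (J * T * J')
  set c := (Fintype.card M : ℂ) * (J * T * J').trace / n with hc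
  have h2 : J' * (∑ g, r g * (J * T * J') * r g⁻¹) * J = (Nat.card W : ℂ) • T := by
    rw [Matrix.mul_sum, Matrix.sum_mul]
    have h3 : ∀ g ∈ univ, J' * (r g * (J * T * J') * r g⁻¹) * J = if g ∈ W then T else 0 := by
      intro g _
      have h4 : J' * (r g * (J * T * J') * r g⁻¹) * J = (J' * r g * J) * T * (J' * r g⁻¹ * J) := by
        simp only [Matrix.mul_assoc]
      rw [h4]
      by_cases hg : g ∈ W
      · rw [if_pos hg]
        have h5 : J' * r g * J = h.rep ⟨g, hg⟩ := rfl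
        have h6 : J' * r g⁻¹ * J = h.rep ⟨g, hg⟩⁻¹ := rfl
        rw [h5, h6, ← hT, Matrix.mul_assoc, mul_inv_r, Matrix.mul_one]
      · rw [if_neg hg, h.van' hg, Matrix.zero_mul, Matrix.zero_mul]
    rw [sum_congr rfl h3, ← sum_filter, sum_const, ← Nat.cast_smul_eq_nsmul ℂ]
    congr 2
    rw [Nat.card_eq_fintype_card, Fintype.card_subtype]
  rw [h1, Matrix.mul_smul, Matrix.smul_mul, Matrix.mul_one, h.one] at h2
  have hW : (Nat.card W : ℂ) ≠ 0 := by exact_mod_cast Nat.card_pos.ne'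
  refine ⟨(Nat.card W : ℂ)⁻¹ * c, ?_⟩
  rw [← smul_smul, h2, smul_smul, inv_mul_cancel₀ hW, one_smul]

theorem index (h : Pr r K0 W k J J') (hr : Sch r) (hn : n ≠ 0) : n = W.index * k := by
  have h1 := (index_formula hr hn (T := W) h.idem h.ne_zero (fun t ht => (h.com t ht).symm)
    h.van).1
  rw [trace_fac h.one] at h1
  exact_mod_cast h1

theorem trace_ind (h : Pr r K0 W k J J') (hr : Sch r) (hn : n ≠ 0) (g : M) :
    (r g).trace = ind W (fun w => (h.rep w).trace) g := by
  classical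
  have h1 := (index_formula hr hn (T := W) h.idem h.ne_zero (fun t ht => (h.com t ht).symm)
    h.van).2
  have hW : (Nat.card W : ℂ) ≠ 0 := by exact_mod_cast Nat.card_pos.ne'
  have h2 : (Nat.card W : ℂ) * (r g).trace =
      ∑ x : M, if hx : x⁻¹ * g * x ∈ W then (h.rep ⟨x⁻¹ * g * x, hx⟩).trace else 0 := by
    have h3 : (Nat.card W : ℂ) * (r g).trace = (r g * ∑ x, r x * (J * J') * r x⁻¹).trace := by
      rw [h1, Matrix.mul_smul, Matrix.mul_one, Matrix.trace_smul, smul_eq_mul]
    rw [h3, Matrix.mul_sum, Matrix.trace_sum]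
    refine sum_congr rfl fun x _ => ?_
    have h4 : (r g * (r x * (J * J') * r x⁻¹)).trace = (J' * r (x⁻¹ * g * x) * J).trace := by
      have h5 : r g * (r x * (J * J') * r x⁻¹) = (r g * r x * J) * (J' * r x⁻¹) := by
        simp only [Matrix.mul_assoc]
      rw [h5, Matrix.trace_mul_comm, map_mul, map_mul]
      simp only [Matrix.mul_assoc]
    rw [h4]
    by_cases hx : x⁻¹ * g * x ∈ W
    · rw [dif_pos hx]
      rfl
    · rw [dif_neg hx, h.van' hx, Matrix.trace_zero]
  unfold ind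
  rw [← h2, ← mul_assoc, inv_mul_cancel₀ hW, one_mul]

omit [Fintype M] in
/-- refinement of a pair -/
theorem refine' (h : Pr r K0 W k J J') {T : Subgroup W} {E : Matrix (Fin k) (Fin k) ℂ}
    (hK : K0.subgroupOf W ≤ T) (hE : E * E = E) (hE0 : E ≠ 0)
    (hT : ∀ t ∈ T, h.rep t * E = E * h.rep t) (hT' : ∀ g ∉ T, E * h.rep g * E = 0) :
    ∃ (k' : ℕ) (A : Matrix (Fin n) (Fin k') ℂ) (A' : Matrix (Fin k') (Fin n) ℂ),
      Pr r K0 (T.map W.subtype) k' A A' ∧ (k' : ℂ) = E.trace := by
  obtain ⟨k', B, B', hB, hB'⟩ := idem_factor E hE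
  have hEB : J * B * (B' * J') = J * E * J' := by
    rw [← hB]
    simp only [Matrix.mul_assoc]
  refine ⟨k', J * B, B' * J', ⟨?_, ?_, ?_, ?_, ?_⟩, ?_⟩
  · intro x hx
    exact ⟨⟨x, h.le hx⟩, hK (Subgroup.mem_subgroupOf.2 hx), rfl⟩
  · rintro rfl
    apply hE0
    rw [← hB]
    ext i j
    rw [Matrix.mul_apply]
    simp
  · calc B' * J' * (J * B) = B' * (J' * J) * B := by simp only [Matrix.mul_assoc]
      _ = 1 := by rw [h.one, Matrix.mul_one, hB']
  · rintro _ ⟨w, hw, rfl⟩
    have e1 : J' * r (w : M) = h.rep w * J' :=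
      compr_right (r.comp W.subtype) J J' h.one (fun w => h.com w.1 w.2) w
    have e2 : r (w : M) * J = J * h.rep w :=
      compr_left (r.comp W.subtype) J J' h.one (fun w => h.com w.1 w.2) w
    change J * B * (B' * J') * r (w : M) = r (w : M) * (J * B * (B' * J'))
    rw [hEB]
    calc J * E * J' * r (w : M) = J * E * (J' * r (w : M)) := by simp only [Matrix.mul_assoc]
      _ = J * (E * h.rep w) * J' := by rw [e1]; simp only [Matrix.mul_assoc]
      _ = (J * h.rep w) * E * J' := by rw [← hT w hw]; simp only [Matrix.mul_assoc]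
      _ = r (w : M) * (J * E * J') := by rw [← e2]; simp only [Matrix.mul_assoc]
  · intro g hg
    rw [hEB]
    have e3 : J * E * J' * r g * (J * E * J') = J * (E * (J' * r g * J) * E) * J' := by
      simp only [Matrix.mul_assoc]
    rw [e3]
    by_cases hgW : g ∈ W
    · have h1 : (⟨g, hgW⟩ : W) ∉ T := fun h2 => hg ⟨⟨g, hgW⟩, h2, rfl⟩
      have h2 := hT' _ h1
      have h3 : J' * r g * J = h.rep ⟨g, hgW⟩ := rfl
      rw [h3, h2, Matrix.mul_zero, Matrix.zero_mul]
    · rw [h.van' hgW, Matrix.mul_zero, Matrix.zero_mul, Matrix.mul_zero, Matrix.zero_mul]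
  · rw [← hB, trace_fac hB']

end Pr

/-- Existence of a minimal pair. -/
theorem cliff [Fintype M] {r : M →* Matrix (Fin n) (Fin n) ℂ} (hr : Sch r) (hn : n ≠ 0)
    (K0 : Subgroup M) :
    ∃ (W : Subgroup M) (k : ℕ) (s : W →* Matrix (Fin k) (Fin k) ℂ), K0 ≤ W ∧ k ≠ 0 ∧ Sch s ∧
      n = W.index * k ∧ (∀ g, (r g).trace = ind W (fun w => (s w).trace) g) ∧
      ∀ (T : Subgroup W) (E : Matrix (Fin k) (Fin k) ℂ), K0.subgroupOf W ≤ T → E * E = E →
        E ≠ 0 → E ≠ 1 → (∀ t ∈ T, s t * E = E * s t) → (∀ g ∉ T, E * s g * E = 0) → False := by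
  classical
  have hex : ∃ k : ℕ, ∃ (W : Subgroup M) (J : Matrix (Fin n) (Fin k) ℂ)
      (J' : Matrix (Fin k) (Fin n) ℂ), Pr r K0 W k J J' :=
    ⟨n, ⊤, 1, 1, ⟨le_top, hn, Matrix.mul_one 1, fun w _ => by
      rw [Matrix.mul_one, Matrix.one_mul, Matrix.mul_one], fun g hg => absurd trivial hg⟩⟩
  obtain ⟨W, J, J', h⟩ := Nat.find_spec hex
  set k := Nat.find hex with hk
  refine ⟨W, k, h.rep, h.le, h.k0, h.sch hr hn, h.index hr hn, h.trace_ind hr hn, ?_⟩
  intro T E hK hE hE0 hE1 hT hT'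
  obtain ⟨k', A, A', hA, htr⟩ := h.refine' hK hE hE0 hT hT'
  have h1 : k ≤ k' := Nat.find_min' hex ⟨_, A, A', hA⟩
  -- the complementary idempotent
  have hF : (1 - E) * (1 - E) = 1 - E := by
    rw [Matrix.mul_sub, Matrix.sub_mul, Matrix.sub_mul, Matrix.one_mul, Matrix.mul_one,
      Matrix.one_mul, hE, sub_self, sub_zero]
  obtain ⟨k'', B, B', hB, hB'⟩ := idem_factor (1 - E) hF
  have h2 : ((k' + k'' : ℕ) : ℂ) = (k : ℂ) := by
    have h3 := trace_fac hB'
    rw [hB, Matrix.trace_sub, Matrix.trace_one, Fintype.card_fin, ← htr] at h3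
    push_cast
    linear_combination -h3
  have h3 : k' + k'' = k := by exact_mod_cast h2
  have h4 : k'' = 0 := by omega
  have h5 : (1 - E).trace = 0 := by rw [← hB, trace_fac hB', h4]; simp
  exact hE1 (sub_eq_zero.1 (idem_trace_zero hF h5)).symm

end Pool.Agent.Lib.MP_1aae89_al.BF
end

section
/-!
# Irreducible representations and matrices; levels
-/
set_option autoImplicit false

namespace Pool.Agent.Lib.MP_1aae89_al.BF

open Matrix Finset

/-- an irreducible representation as a matrix representation with scalar commutant -/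
theorem of_irr {M : Type} [Group M] {V : Type} [AddCommGroup V] [Module ℂ V]
    [FiniteDimensional ℂ V] (ρ : Representation ℂ M V) (h : ρ.IsIrreducible) :
    ∃ r : M →* Matrix (Fin (Module.finrank ℂ V)) (Fin (Module.finrank ℂ V)) ℂ,
      Sch r ∧ ∀ g, ρ.character g = (r g).trace := by
  classical
  let b := Module.finBasis ℂ V
  let f := LinearMap.toMatrixAlgEquiv b
  refine ⟨(f : (V →ₗ[ℂ] V) →* _).comp ρ, ?_, ?_⟩
  · intro T hT
    have h1 : ∀ g, f.symm T ∘ₗ ρ g = ρ g ∘ₗ f.symm T := by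
      intro g
      apply f.injective
      change f (f.symm T * ρ g) = f (ρ g * f.symm T)
      rw [map_mul, map_mul, AlgEquiv.apply_symm_apply]
      exact hT g
    let F : Representation.IntertwiningMap ρ ρ := ⟨f.symm T, h1⟩
    obtain ⟨c, hc⟩ :=
      (Representation.IsIrreducible.algebraMap_intertwiningMap_bijective_of_isAlgClosed
        (ρ := ρ) (k := ℂ)).2 F
    refine ⟨c, ?_⟩
    have h2 : f.symm T = c • (1 : V →ₗ[ℂ] V) := by
      have h3 := congrArg Representation.IntertwiningMap.toLinearMap hc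
      exact h3.symm
    have h4 := congrArg f h2
    rw [AlgEquiv.apply_symm_apply, map_smul, map_one] at h4
    exact h4
  · intro g
    change LinearMap.trace ℂ V (ρ g) = (LinearMap.toMatrixAlgEquiv b (ρ g)).trace
    rw [LinearMap.trace_eq_matrix_trace ℂ b]
    rfl

/-- a matrix representation as a representation -/
noncomputable def toRep {M : Type} [Group M] {n : ℕ} (r : M →* Matrix (Fin n) (Fin n) ℂ) :
    Representation ℂ M (Fin n → ℂ) :=
  (Matrix.toLinAlgEquiv' : Matrix (Fin n) (Fin n) ℂ ≃ₐ[ℂ] _).toAlgHom.toMonoidHom.comp r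

theorem toRep_apply {M : Type} [Group M] {n : ℕ} (r : M →* Matrix (Fin n) (Fin n) ℂ) (g : M)
    (v : Fin n → ℂ) : toRep r g v = r g *ᵥ v := by
  change Matrix.toLin' (r g) v = _
  rw [Matrix.toLin'_apply]

theorem toRep_char {M : Type} [Group M] {n : ℕ} (r : M →* Matrix (Fin n) (Fin n) ℂ) (g : M) :
    (toRep r).character g = (r g).trace := by
  change LinearMap.trace ℂ (Fin n → ℂ) (Matrix.toLin' (r g)) = _
  rw [Matrix.trace_toLin'_eq]

/-- a matrix representation of a finite group with scalar commutant is irreducible -/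
theorem toRep_irr {M : Type} [Group M] [Finite M] {n : ℕ} (hn : n ≠ 0)
    {r : M →* Matrix (Fin n) (Fin n) ℂ} (hr : Sch r) : (toRep r).IsIrreducible := by
  classical
  have : Fintype M := Fintype.ofFinite M
  have hG : (Fintype.card M : ℂ) ≠ 0 := by exact_mod_cast Fintype.card_ne_zero
  have key : ∀ U : Subrepresentation (toRep r), U = ⊥ ∨ U = ⊤ := by
    intro U
    -- a projection onto `U`
    obtain ⟨g0, hg0⟩ := Submodule.exists_isCompl U.toSubmodule
    let P : (Fin n → ℂ) →ₗ[ℂ] (Fin n → ℂ) :=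
      U.toSubmodule.subtype ∘ₗ Submodule.projectionOnto _ _ hg0
    have hP1 : ∀ v, P v ∈ U.toSubmodule := fun v => (Submodule.projectionOnto _ _ hg0 v).2
    have hP2 : ∀ v ∈ U.toSubmodule, P v = v := by
      intro v hv
      have := Submodule.projectionOnto_apply_left hg0 ⟨v, hv⟩
      change ((Submodule.projectionOnto _ _ hg0 v : U.toSubmodule) : Fin n → ℂ) = v
      rw [this]
    set D : Matrix (Fin n) (Fin n) ℂ := LinearMap.toMatrix' P with hD
    have hDv : ∀ v, D *ᵥ v = P v := fun v => by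
      rw [hD, ← Matrix.toLin'_apply, Matrix.toLin'_toMatrix']
    obtain ⟨c, hc⟩ := hr (∑ g, r g * D * r g⁻¹) fun h => (avg2 r r D h).symm
    have hU : ∀ g v, v ∈ U.toSubmodule → r g *ᵥ v ∈ U.toSubmodule := fun g v hv => by
      rw [← toRep_apply]
      exact U.apply_mem_toSubmodule g hv
    have h1 : ∀ v, c • v ∈ U.toSubmodule := by
      intro v
      have h2 : c • v = ∑ g, r g *ᵥ (P (r g⁻¹ *ᵥ v)) := by
        have h3 : (∑ g, r g * D * r g⁻¹) *ᵥ v = ∑ g, r g *ᵥ (P (r g⁻¹ *ᵥ v)) := by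
          rw [Matrix.sum_mulVec]
          refine sum_congr rfl fun g _ => ?_
          rw [← Matrix.mulVec_mulVec, ← Matrix.mulVec_mulVec, hDv]
        rw [← h3, hc, Matrix.smul_mulVec, Matrix.one_mulVec]
      rw [h2]
      exact Submodule.sum_mem _ fun g _ => hU g _ (hP1 _)
    have h2 : ∀ v ∈ U.toSubmodule, c • v = (Fintype.card M : ℂ) • v := by
      intro v hv
      have h3 : (∑ g, r g * D * r g⁻¹) *ᵥ v = ∑ _g : M, v := by
        rw [Matrix.sum_mulVec]
        refine sum_congr rfl fun g _ => ?_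
        rw [← Matrix.mulVec_mulVec, ← Matrix.mulVec_mulVec, hDv, hP2 _ (hU g⁻¹ v hv),
          Matrix.mulVec_mulVec, mul_inv_r, Matrix.one_mulVec]
      rw [hc, Matrix.smul_mulVec, Matrix.one_mulVec, sum_const, card_univ,
        ← Nat.cast_smul_eq_nsmul ℂ] at h3
      exact h3
    by_cases h0 : c = 0
    · left
      have h3 : U.toSubmodule = ⊥ := by
        rw [eq_bot_iff]
        intro v hv
        have h4 := h2 v hv
        rw [h0, zero_smul] at h4
        rcases smul_eq_zero.1 h4.symm with h5 | h5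
        · exact absurd h5 hG
        · exact h5
      exact Subrepresentation.toSubmodule_injective h3
    · right
      have h3 : U.toSubmodule = ⊤ := by
        rw [eq_top_iff]
        intro v _
        have h4 := h1 (c⁻¹ • v)
        rwa [smul_smul, mul_inv_cancel₀ h0, one_smul] at h4
      exact Subrepresentation.toSubmodule_injective h3
  have : Nontrivial (Subrepresentation (toRep r)) := by
    refine ⟨⊥, ⊤, fun h => ?_⟩
    have h1 := congrArg Subrepresentation.toSubmodule h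
    have h2 : (⊥ : Submodule ℂ (Fin n → ℂ)) = ⊤ := h1
    have : Nonempty (Fin n) := ⟨⟨0, Nat.pos_of_ne_zero hn⟩⟩
    exact bot_ne_top h2
  exact { eq_bot_or_eq_top := key }

/-! ## Levels -/

theorem conductor_eq {G : Type} (χ : G → ℂ) :
    Pool.Agent.Lib.MP1aae89.conductor χ = conductor χ := by
  unfold Pool.Agent.Lib.MP1aae89.conductor conductor
  congr 1
  ext m
  simp only [Set.mem_ofPred_eq]
  rw [charField_le]
  rfl

theorem lev_eq {p : ℕ} (hp : p.Prime) {G : Type} (χ : G → ℂ) :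
    Pool.Agent.Lib.MP1aae89.lev p χ = lev p χ := by
  unfold Pool.Agent.Lib.MP1aae89.lev lev
  rw [conductor_eq, Nat.factorization_def _ hp]

end Pool.Agent.Lib.MP_1aae89_al.BF
end

section
/-!
# The induction along a chain of normal subgroups
-/
set_option autoImplicit false

namespace Pool.Agent.Lib.MP_1aae89_al.BF

open Matrix Finset
open scoped Kronecker

/-- elements of `p`-power order modulo a subgroup -/
theorem pow_mem_of {W : Type} [Group W] {p b : ℕ} (hb : 1 ≤ b) {A B : Subgroup W}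
    (h : ∀ x ∈ B, x ^ p ^ b ∈ A → x ^ p ^ (b - 1) ∈ A) {x : W} (hx : x ∈ B) (j : ℕ)
    (hj : x ^ p ^ (b - 1 + j) ∈ A) : x ^ p ^ (b - 1) ∈ A := by
  induction j with
  | zero => exact hj
  | succ j ih =>
    apply ih
    have h1 : (x ^ p ^ j) ^ p ^ b ∈ A := by
      rw [← pow_mul, ← pow_add]
      have : j + b = b - 1 + (j + 1) := by omega
      rwa [this]
    have h2 := h _ (pow_mem hx _) h1
    rw [← pow_mul, ← pow_add] at h2
    have : j + (b - 1) = b - 1 + j := by omega
    rwa [this] at h2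

theorem chain {p NN κ b : ℕ} {σ : ℂ →+* ℂ} (hG : Gd p NN κ σ) (hp1 : p ∣ κ - 1) (hb : 1 ≤ b)
    {W : Type} [Group W] [Fintype W] {k : ℕ} {s : W →* Matrix (Fin k) (Fin k) ℂ}
    (hk : ¬ p ∣ k) (m : ℕ) (L : ℕ → Subgroup W) (hL : ∀ i, (L i).Normal)
    (hmono : ∀ i < m, L i ≤ L (i + 1)) (htop : L m = ⊤)
    (hno : ∀ (T : Subgroup W) (E : Matrix (Fin k) (Fin k) ℂ), L 0 ≤ T → E * E = E →
      E ≠ 0 → E ≠ 1 → (∀ t ∈ T, s t * E = E * s t) → (∀ g ∉ T, E * s g * E = 0) → False)
    (hbase : ∀ (d : ℕ) (r' : L 0 →* Matrix (Fin d) (Fin d) ℂ), Sch r' → ¬ p ∣ d →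
      ∀ l, σ (r' l).trace = (r' l).trace)
    (hdet : ∀ w, σ (s w).det = (s w).det)
    (hstep : ∀ i < m, (∀ x ∈ L (i + 1), ∃ j, x ^ p ^ j ∈ L i) ∨
      (∀ x ∈ L (i + 1), x ^ p ^ b ∈ L i → x ^ p ^ (b - 1) ∈ L i))
    (ho : ordCompl[p] (Fintype.card W) * p ^ (b - 1) ∣ κ - 1)
    (hN1 : Fintype.card W * p ∣ NN)
    (hN2 : Fintype.card W * (ordCompl[p] (Fintype.card W) * p ^ (b - 1)) ∣ NN) (x : W) :
    σ (s x).trace = (s x).trace := by
  classical
  have hpp := hG.pp
  have hk0 : k ≠ 0 := by rintro rfl; exact hk (dvd_zero _)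
  have hWN : Fintype.card W ∣ NN := (dvd_mul_right _ _).trans hN1
  have hle : ∀ i ≤ m, L 0 ≤ L i := by
    intro i
    induction i with
    | zero => intro _; exact le_rfl
    | succ i ih => intro h; exact (ih (by omega)).trans (hmono i (by omega))
  -- the restriction to `L i` is isotypic
  have hiso : ∀ i ≤ m, ∃ (e d : ℕ) (r' : L i →* Matrix (Fin d) (Fin d) ℂ)
      (Q : Matrix (Fin k) (Fin e × Fin d) ℂ) (Q' : Matrix (Fin e × Fin d) (Fin k) ℂ),
      ¬ p ∣ e ∧ ¬ p ∣ d ∧ Sch r' ∧ Q * Q' = 1 ∧ Q' * Q = 1 ∧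
      ∀ l : L i, s l * Q = Q * ((1 : Matrix (Fin e) (Fin e) ℂ) ⊗ₖ r' l) := by
    intro i hi
    have := hL i
    rcases dicho s (L i) hk0 with ⟨e, d, r', Q, Q', hked, hr', h1, h2, h3⟩ |
        ⟨T, E, hT0, hE, hE0, hE1, hT, hT'⟩
    · exact ⟨e, d, r', Q, Q', fun h => hk (hked ▸ h.mul_right d), fun h => hk (hked ▸ h.mul_left e),
        hr', h1, h2, h3⟩
    · exact (hno T E ((hle i hi).trans hT0) hE hE0 hE1 hT hT').elim
  have hne : ∀ {e : ℕ}, ¬ p ∣ e → (e : ℂ) ≠ 0 := by
    intro e he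
    have : e ≠ 0 := by rintro rfl; exact he (dvd_zero _)
    exact_mod_cast this
  have main : ∀ i ≤ m, ∀ x ∈ L i, σ (s x).trace = (s x).trace := by
    intro i
    induction i with
    | zero =>
      intro h0 x hx
      obtain ⟨e, d, r', Q, Q', he, hd, hr', h1, h2, h3⟩ := hiso 0 h0
      have h4 := trace_iso h1 h2 h3 ⟨x, hx⟩
      have h5 : (s x).trace = (e : ℂ) * (r' ⟨x, hx⟩).trace := h4
      rw [h5, map_mul, map_natCast, hbase d r' hr' hd]
    | succ i ih =>
      intro hi x hx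
      have ih' := ih (by omega)
      obtain ⟨e, d, r', Q, Q', he, hd, hr', h1, h2, h3⟩ := hiso i (by omega)
      have hL' : ∀ l : L i, σ (r' l).trace = (r' l).trace := by
        intro l
        have h4 : (s (l : W)).trace = (e : ℂ) * (r' l).trace := trace_iso h1 h2 h3 l
        have h5 := ih' l l.2
        rw [h4, map_mul, map_natCast] at h5
        exact mul_left_cancel₀ (hne he) h5
      have hLn := hL i
      rcases hstep i (by omega) with hs | hs
      · -- a `p`-group
        obtain ⟨e', d', r'', R, R', he', hd', hr'', g1, g2, g3⟩ := hiso (i + 1) hi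
        have hfin : Fintype (L (i + 1)) := Fintype.ofFinite _
        have hcd : Fintype.card (L (i + 1)) ∣ Fintype.card W := by
          rw [← Nat.card_eq_fintype_card, ← Nat.card_eq_fintype_card]
          exact Subgroup.card_subgroup_dvd_card _
        have hN : ((L i).subgroupOf (L (i + 1))).Normal := inferInstance
        have h6 := pstep hG hp1 (Fintype.card (L (i + 1))) (L (i + 1))
          ((L i).subgroupOf (L (i + 1))) d' r'' rfl hr'' hd'
          (det_fix' hG hWN he' g1 g2 g3 hdet)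
          (fun l => by
            have h7 : (s ((l : L (i + 1)) : W)).trace = (e' : ℂ) * (r'' l).trace :=
              trace_iso g1 g2 g3 l
            have h8 := ih' _ (Subgroup.mem_subgroupOf.1 l.2)
            rw [h7, map_mul, map_natCast] at h8
            exact mul_left_cancel₀ (hne he') h8)
          (fun y => by
            obtain ⟨j, hj⟩ := hs y y.2
            exact ⟨j, Subgroup.mem_subgroupOf.2 (by rw [Subgroup.coe_pow]; exact hj)⟩)
          ((Nat.mul_dvd_mul_right hcd p).trans hN1)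
        have h9 : (s x).trace = (e' : ℂ) * (r'' ⟨x, hx⟩).trace := trace_iso g1 g2 g3 ⟨x, hx⟩
        rw [h9, map_mul, map_natCast, h6]
      · -- elements of bounded order
        refine estep' hG he hd hr' h1 h2 h3 hdet hL' ho hN2 x ?_
        rw [pow_mul]
        have h4 : x ^ ordCompl[p] (Fintype.card W) ∈ L (i + 1) := pow_mem hx _
        refine pow_mem_of hb hs h4 ((Fintype.card W).factorization p) ?_
        have h5 : (x ^ ordCompl[p] (Fintype.card W)) ^
            p ^ (b - 1 + (Fintype.card W).factorization p) = 1 := by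
          rw [pow_add p, mul_comm (p ^ (b - 1)), pow_mul, ← pow_mul x, mul_comm (_ / _),
            Nat.ordProj_mul_ordCompl_eq_self, pow_card_eq_one, one_pow]
        rw [h5]
        exact one_mem _
  exact main m le_rfl x (htop ▸ trivial)

end Pool.Agent.Lib.MP_1aae89_al.BF
end

section
/-!
# The decomposition theorem
-/
set_option autoImplicit false

namespace Pool.Agent.Lib.MP_1aae89_al.BF

open Matrix Finset
open Pool.Agent.Lib.MP1aae89 (ex ex_coprime exists_aut fixed_of_lev moved_of_lev)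

/-! ## Numbers -/

/-- the automorphism -/
theorem exists_gd {p N b : ℕ} (hp : p.Prime) (hN : N ≠ 0) (hb : 2 ≤ b) :
    ∃ σ : ℂ →+* ℂ, Gd p N (ex p N b 1) σ ∧
      ∀ ξ : ℂ, ξ ^ N = 1 → σ ξ = ξ ^ ex p N b 1 := by
  obtain ⟨σ, hσ⟩ := exists_aut N (Nat.pos_of_ne_zero hN) (ex p N b 1) (ex_coprime hp hb)
  have hex : ex p N b 1 = ordCompl[p] N * p ^ (b - 1) + 1 := by rw [ex, mul_one, add_comm]
  have hex1 : ex p N b 1 - 1 = ordCompl[p] N * p ^ (b - 1) := by rw [hex]; omega
  refine ⟨σ, ⟨hp, hN, by rw [hex]; omega, fun ξ h => hσ ξ h, ?_, ?_⟩, fun ξ h => hσ ξ h⟩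
  · refine ⟨N.factorization p, ?_⟩
    rw [hex1]
    refine ⟨p ^ (b - 1), ?_⟩
    conv_rhs => rw [← Nat.ordProj_mul_ordCompl_eq_self N p]
    ring
  · refine ⟨N.factorization p, ?_⟩
    set f := N.factorization p with hf
    set κ := ex p N b 1 with hκ
    have h1 : ((p : ℕ) : ℤ) ∣ (κ : ℤ) - 1 := by
      rw [hex]
      push_cast
      rw [add_sub_cancel_right]
      exact Dvd.dvd.mul_left (dvd_pow_self _ (by omega)) _
    have h2 := dvd_sub_pow_of_dvd_sub h1 f
    rw [one_pow] at h2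
    have h3 : ((ordCompl[p] N : ℕ) : ℤ) ∣ (κ : ℤ) ^ p ^ f - 1 := by
      have h4 : ((ordCompl[p] N : ℕ) : ℤ) ∣ (κ : ℤ) - 1 := by
        rw [hex, Nat.cast_add, Nat.cast_mul, Nat.cast_one, add_sub_cancel_right]
        exact dvd_mul_right _ _
      have h5 := sub_dvd_pow_sub_pow (κ : ℤ) 1 (p ^ f)
      rw [one_pow] at h5
      exact h4.trans h5
    have h4 : ((p ^ f : ℕ) : ℤ) ∣ (κ : ℤ) ^ p ^ f - 1 := by
      refine Dvd.dvd.trans ?_ h2
      push_cast
      exact pow_dvd_pow _ (Nat.le_succ f)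
    have h5 : IsCoprime ((p ^ f : ℕ) : ℤ) ((ordCompl[p] N : ℕ) : ℤ) := by
      rw [Nat.isCoprime_iff_coprime]
      exact (Nat.coprime_ordCompl hp hN).pow_left f
    have h6 := h5.mul_dvd h4 h3
    have h7 : ((p ^ f : ℕ) : ℤ) * ((ordCompl[p] N : ℕ) : ℤ) = (N : ℤ) := by
      rw [← Nat.cast_mul, Nat.ordProj_mul_ordCompl_eq_self]
    rw [h7] at h6
    have h8 : (1 : ℤ) ≡ ((κ ^ p ^ f : ℕ) : ℤ) [ZMOD (N : ℤ)] := by
      rw [Int.modEq_iff_dvd]
      push_cast
      exact h6
    exact ((Int.natCast_modEq_iff).1 (by exact_mod_cast h8)).symm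

/-- a number which is `0` modulo the `p'`-part and inverse to `k` modulo the `p`-part -/
theorem exists_inv {p c k : ℕ} (hp : p.Prime) (hc : c ≠ 0) (hk : ¬ p ∣ k) :
    ∃ t, ordCompl[p] c * t * k ≡ 1 [MOD ordProj[p] c] := by
  by_cases h1 : 1 < ordProj[p] c
  · have hcop : (ordCompl[p] c * k).Coprime (ordProj[p] c) := by
      refine Nat.Coprime.mul_left ?_ ?_
      · exact ((Nat.coprime_ordCompl hp hc).pow_left _).symm
      · exact (((Nat.Prime.coprime_iff_not_dvd hp).2 hk).pow_left _).symm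
    obtain ⟨t, ht⟩ := Nat.exists_mul_mod_eq_one_of_coprime hcop h1
    refine ⟨t, ?_⟩
    have : ordCompl[p] c * t * k = ordCompl[p] c * k * t := by ring
    rw [this]
    change _ % _ = 1 % _
    rw [Nat.mod_eq_of_lt h1]
    first
      | exact ht
      | exact ht.2
  · have h2 : ordProj[p] c = 1 := by
      have : 0 < ordProj[p] c := pow_pos hp.pos _
      omega
    refine ⟨0, ?_⟩
    rw [h2]
    exact Nat.modEq_one

/-- powers of a root of unity -/
theorem unit_pow {p c k t : ℕ} {u : ℂˣ} (hu : u ^ c = 1)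
    (ht : ordCompl[p] c * t * k ≡ 1 [MOD ordProj[p] c]) :
    (((u ^ (ordCompl[p] c * t)) ^ k)⁻¹ * u) ^ ordCompl[p] c = 1 := by
  have h1 : (u ^ ordCompl[p] c) ^ ordProj[p] c = 1 := by
    rw [← pow_mul, mul_comm, Nat.ordProj_mul_ordCompl_eq_self, hu]
  have h2 : (u ^ ordCompl[p] c) ^ (ordCompl[p] c * t * k) = u ^ ordCompl[p] c := by
    have h3 : (ordCompl[p] c * t * k) % ordProj[p] c = 1 % ordProj[p] c := ht
    rw [← powmod h1 (ordCompl[p] c * t * k), h3, powmod h1 1, pow_one]
  have h4 : ((u ^ (ordCompl[p] c * t)) ^ k) ^ ordCompl[p] c =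
      (u ^ ordCompl[p] c) ^ (ordCompl[p] c * t * k) := by
    rw [← pow_mul, ← pow_mul, ← pow_mul]
    congr 1
    ring
  rw [mul_pow, inv_pow, h4, h2, inv_mul_cancel]

/-! ## The twisted representation -/

/-- the determinant as a linear character -/
noncomputable def dt {W : Type} [Group W] {k : ℕ} (s : W →* Matrix (Fin k) (Fin k) ℂ) : W →* ℂˣ :=
  (Units.map (Matrix.detMonoidHom : Matrix (Fin k) (Fin k) ℂ →* ℂ)).comp s.toHomUnits

theorem dt_apply {W : Type} [Group W] {k : ℕ} (s : W →* Matrix (Fin k) (Fin k) ℂ) (w : W) :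
    (dt s w : ℂ) = (s w).det := rfl

/-- twist by the inverse of a linear character -/
noncomputable def tw {W : Type} [Group W] {k : ℕ} (s : W →* Matrix (Fin k) (Fin k) ℂ)
    (β : W →* ℂˣ) : W →* Matrix (Fin k) (Fin k) ℂ where
  toFun w := (((β w)⁻¹ : ℂˣ) : ℂ) • s w
  map_one' := by rw [map_one, map_one, inv_one, Units.val_one, one_smul]
  map_mul' w w' := by
    rw [map_mul, map_mul, _root_.mul_inv_rev, Units.val_mul, Matrix.smul_mul, Matrix.mul_smul,
      smul_smul, mul_comm]

theorem tw_apply {W : Type} [Group W] {k : ℕ} (s : W →* Matrix (Fin k) (Fin k) ℂ)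
    (β : W →* ℂˣ) (w : W) : tw s β w = (((β w)⁻¹ : ℂˣ) : ℂ) • s w := rfl

theorem tw_comm {W : Type} [Group W] {k : ℕ} {s : W →* Matrix (Fin k) (Fin k) ℂ}
    {β : W →* ℂˣ} {w : W} {T : Matrix (Fin k) (Fin k) ℂ} (h : T * tw s β w = tw s β w * T) :
    T * s w = s w * T := by
  rw [tw_apply, Matrix.mul_smul, Matrix.smul_mul] at h
  exact smul_right_injective _ (Units.ne_zero _) h

theorem tw_sch {W : Type} [Group W] {k : ℕ} {s : W →* Matrix (Fin k) (Fin k) ℂ}
    (hs : Sch s) (β : W →* ℂˣ) : Sch (tw s β) := fun T hT =>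
  hs T fun g => tw_comm (hT g)

theorem isCharacter_trace {W : Type} [Group W] {k : ℕ} (s : W →* Matrix (Fin k) (Fin k) ℂ) :
    IsCharacter fun w => (s w).trace := ⟨k, s, fun _ => rfl⟩

/-- the conductor of a character divides the order -/
theorem cond_dvd {W : Type} [Group W] [Fintype W] {χ : W → ℂ} (h : IsCharacter χ) :
    conductor χ ∣ Fintype.card W := conductor_dvd Fintype.card_ne_zero h.mem_cyc_card

/-- a character of small level is fixed -/
theorem fix_char {p N b : ℕ} (hp : p.Prime) (hN : N ≠ 0) (hb : 1 ≤ b) {σ : ℂ →+* ℂ}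
    (hσ : ∀ ξ : ℂ, ξ ^ N = 1 → σ ξ = ξ ^ ex p N b 1) {W : Type} [Group W] [Fintype W]
    {χ : W → ℂ} (h : IsCharacter χ) (hW : Fintype.card W ∣ N) (hlev : lev p χ < b) (w : W) :
    σ (χ w) = χ w := by
  obtain ⟨h1, h2, h3⟩ := lev_spec h p
  refine fixed_of_lev hp (Nat.pos_of_ne_zero hN) hσ hb (Nat.pos_of_ne_zero h1)
    ((cond_dvd h).trans hW) ?_ (h2 w)
  intro h4
  have := (hp.pow_dvd_iff_le_factorization h1).1 h4
  omega

/-- a character of level exactly `b` is moved -/
theorem move_char {p N b : ℕ} (hp : p.Prime) (hN : N ≠ 0) (hb : 2 ≤ b) {σ : ℂ →+* ℂ}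
    (hσ : ∀ ξ : ℂ, ξ ^ N = 1 → σ ξ = ξ ^ ex p N b 1) {W : Type} [Group W] [Fintype W]
    {χ : W → ℂ} (h : IsCharacter χ) (hW : Fintype.card W ∣ N) (hlev : lev p χ = b) :
    ∃ w, σ (χ w) ≠ χ w :=
  moved_of_lev hp (Nat.pos_of_ne_zero hN) hσ hb ((lev_eq hp χ).trans hlev)
    (by rw [conductor_eq]; exact (cond_dvd h).trans hW)

theorem decomposition {p : ℕ} (hp : p.Prime) {M : Type} [Group M] [Fintype M] {n : ℕ}
    {r : M →* Matrix (Fin n) (Fin n) ℂ} (hr : Sch r) (hpn : ¬ p ∣ n) {b : ℕ} (hb : 2 ≤ b)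
    (hlev : lev p (fun g => (r g).trace) = b) (m : ℕ) (K : ℕ → Subgroup M)
    (hK : ∀ i, (K i).Normal) (hmono : ∀ i < m, K i ≤ K (i + 1)) (htop : K m = ⊤)
    (hbase : K 0 = ⊥ ∨ ∀ (d : ℕ) (r' : K 0 →* Matrix (Fin d) (Fin d) ℂ), Sch r' → ¬ p ∣ d →
      lev p (fun l => (r' l).trace) < b)
    (hstep : ∀ i < m, (∀ x ∈ K (i + 1), ∃ j, x ^ p ^ j ∈ K i) ∨
      (∀ x ∈ K (i + 1), x ^ p ^ b ∈ K i → x ^ p ^ (b - 1) ∈ K i)) :
    ∃ (W : Subgroup M) (k : ℕ) (s : W →* Matrix (Fin k) (Fin k) ℂ) (β : W →* ℂˣ),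
      Sch s ∧ n = W.index * k ∧ lev p (fun w => (s w).trace) < b ∧
      b ≤ lev p (fun w => (β w : ℂ)) ∧
      ∀ g, (r g).trace = ind W (fun w => (s w).trace * (β w : ℂ)) g := by
  classical
  have hn : n ≠ 0 := by rintro rfl; exact hpn (dvd_zero _)
  obtain ⟨W, k, s, hKW, hk0, hs, hnk, hind, hno⟩ := cliff hr hn (K 0)
  have hpk : ¬ p ∣ k := fun h => hpn (hnk ▸ h.mul_left _)
  have hWf : Fintype W := Fintype.ofFinite W
  set c := Fintype.card W with hc
  have hc0 : c ≠ 0 := Fintype.card_ne_zero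
  obtain ⟨t, ht⟩ := exists_inv hp hc0 hpk
  set β : W →* ℂˣ := dt s ^ (ordCompl[p] c * t) with hβ
  have hβa : ∀ w, β w = dt s w ^ (ordCompl[p] c * t) := fun w => rfl
  set s' := tw s β with hs'
  have hs's : Sch s' := tw_sch hs β
  have htr : ∀ w, (s w).trace = (s' w).trace * (β w : ℂ) := by
    intro w
    rw [hs', tw_apply, Matrix.trace_smul, smul_eq_mul, mul_comm _ (β w : ℂ), ← mul_assoc,
      ← Units.val_mul, mul_inv_cancel, Units.val_one, one_mul]
  have hdetm : ∀ w, (s' w).det ^ ordCompl[p] c = 1 := by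
    intro w
    have h1 : dt s w ^ c = 1 := by rw [← map_pow, hc, pow_card_eq_one, map_one]
    have h2 := congrArg Units.val (unit_pow h1 ht)
    have h3 : (s' w).det = ((((dt s w ^ (ordCompl[p] c * t)) ^ k)⁻¹ * dt s w : ℂˣ) : ℂ) := by
      rw [hs', tw_apply, Matrix.det_smul, Fintype.card_fin, Units.val_mul, dt_apply, hβa,
        ← Units.val_pow_eq_pow_val, inv_pow]
    rw [h3, ← Units.val_pow_eq_pow_val]
    exact h2
  have hα : IsCharacter fun w => (s' w).trace := isCharacter_trace s'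
  have hidx : ∀ g, (r g).trace = ind W (fun w => (s' w).trace * (β w : ℂ)) g := by
    intro g
    rw [hind g]
    congr 1
    funext w
    exact htr w
  -- the level of `α`
  have h1 : lev p (fun w => (s' w).trace) < b := by
    by_contra hge
    push Not at hge
    set b' := lev p (fun w => (s' w).trace) with hb'
    set N := c * (c * p ^ b) with hNd
    have hN0 : N ≠ 0 := mul_ne_zero hc0 (mul_ne_zero hc0 (pow_ne_zero _ hp.ne_zero))
    obtain ⟨σ, hG, hσ⟩ := exists_gd hp hN0 (b := b') (by omega)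
    obtain ⟨w, hw⟩ := move_char hp hN0 (b := b') (by omega) hσ hα (dvd_mul_right _ _) rfl
    apply hw
    have hex1 : ex p N b' 1 - 1 = ordCompl[p] N * p ^ (b' - 1) := by
      rw [ex, mul_one]; omega
    have hm'N : ordCompl[p] c ∣ ordCompl[p] N :=
      Nat.ordCompl_dvd_ordCompl_of_dvd (dvd_mul_right _ _) p
    have hm'κ : ordCompl[p] c ∣ ex p N b' 1 - 1 := by
      rw [hex1]; exact hm'N.mul_right _
    have hm'c : ordCompl[p] c ∣ c := Nat.ordCompl_dvd c p
    refine chain hG ?_ (b := b) (by omega) hpk m (fun i => (K i).subgroupOf W)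
      (fun i => by have := hK i; infer_instance)
      (fun i hi => fun x hx => Subgroup.mem_subgroupOf.2
        (hmono i hi (Subgroup.mem_subgroupOf.1 hx)))
      (by rw [htop]; rfl) ?_ ?_ ?_ ?_ ?_ ?_ ?_ w
    · rw [hex1]
      exact (dvd_pow_self p (by omega)).mul_left _
    · intro T E hT0 hE hE0 hE1 hT hT'
      refine hno T E hT0 hE hE0 hE1 (fun t ht => ?_) fun g hg => ?_
      · exact (tw_comm (hT t ht).symm).symm
      · have h3 := hT' g hg
        rw [hs', tw_apply, Matrix.mul_smul, Matrix.smul_mul] at h3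
        rcases smul_eq_zero.1 h3 with h4 | h4
        · exact absurd h4 (Units.ne_zero _)
        · exact h4
    · intro d r' hr' hpd l
      rcases hbase with h0 | h0
      · have h3 : l = 1 := by
          have h4 : ((l : W) : M) ∈ (⊥ : Subgroup M) := h0.le (Subgroup.mem_subgroupOf.1 l.2)
          exact Subtype.ext (Subtype.ext (Subgroup.mem_bot.1 h4))
        rw [h3, map_one, Matrix.trace_one, map_natCast]
      · let e : (K 0).subgroupOf W ≃* K 0 := Subgroup.subgroupOfEquivOfLe hKW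
        have h3 := h0 d (r'.comp e.symm.toMonoidHom) (fun T hT => hr' T fun g => by
          have := hT (e g)
          change T * r' (e.symm (e g)) = r' (e.symm (e g)) * T at this
          rwa [MulEquiv.symm_apply_apply] at this) hpd
        have hKf : Fintype (K 0) := Fintype.ofFinite _
        have hcd : Fintype.card (K 0) ∣ N := by
          refine Dvd.dvd.trans ?_ (dvd_mul_right c _)
          rw [hc, ← Nat.card_eq_fintype_card, ← Nat.card_eq_fintype_card]
          exact Subgroup.card_dvd_of_le hKW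
        have h4 := fix_char hp hN0 (by omega) hσ
          (isCharacter_trace (r'.comp e.symm.toMonoidHom)) hcd (h3.trans_le hge) (e l)
        change σ (r' (e.symm (e l))).trace = (r' (e.symm (e l))).trace at h4
        rwa [MulEquiv.symm_apply_apply] at h4
    · intro w
      have h3 : (s' w).det ^ N = 1 := by
        obtain ⟨q, hq⟩ := hm'c.trans (dvd_mul_right c (c * p ^ b))
        rw [hNd, hq, pow_mul, hdetm, one_pow]
      rw [hσ _ h3]
      obtain ⟨q, hq⟩ := hm'κ
      have h4 : ex p N b' 1 = (ex p N b' 1 - 1) + 1 := by rw [ex]; omega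
      rw [h4, hq, pow_succ, pow_mul, hdetm, one_pow, one_mul]
    · intro i hi
      rcases hstep i hi with h3 | h3
      · left
        intro x hx
        obtain ⟨j, hj⟩ := h3 x (Subgroup.mem_subgroupOf.1 hx)
        exact ⟨j, Subgroup.mem_subgroupOf.2 (by rw [Subgroup.coe_pow]; exact hj)⟩
      · right
        intro x hx hxb
        have h4 := h3 x (Subgroup.mem_subgroupOf.1 hx) (by
          have := Subgroup.mem_subgroupOf.1 hxb
          rwa [Subgroup.coe_pow] at this)
        exact Subgroup.mem_subgroupOf.2 (by rw [Subgroup.coe_pow]; exact h4)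
    · rw [hex1]
      exact mul_dvd_mul hm'N (pow_dvd_pow p (by omega))
    · refine mul_dvd_mul_left c ?_
      exact (dvd_pow_self p (by omega)).mul_left c
    · refine mul_dvd_mul_left c (mul_dvd_mul hm'c (pow_dvd_pow p (by omega)))
  refine ⟨W, k, s', β, hs's, hnk, h1, ?_, hidx⟩
  -- the level of `β`
  by_contra hlt
  push Not at hlt
  set N := c * Fintype.card M with hNd
  have hN0 : N ≠ 0 := mul_ne_zero hc0 Fintype.card_ne_zero
  obtain ⟨σ, hG, hσ⟩ := exists_gd hp hN0 hb
  obtain ⟨g, hg⟩ := move_char hp hN0 hb hσ (isCharacter_trace r) (dvd_mul_left _ _) hlev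
  apply hg
  have h2 := fix_char hp hN0 (by omega) hσ hα (dvd_mul_right _ _) h1
  have h3 := fix_char hp hN0 (by omega) hσ (isCharacter_linear β) (dvd_mul_right _ _) hlt
  rw [hidx g]
  unfold ind
  rw [map_mul, map_inv₀, map_natCast, map_sum]
  congr 1
  refine sum_congr rfl fun x _ => ?_
  by_cases hx : x⁻¹ * g * x ∈ W
  · rw [dif_pos hx, map_mul, h2, h3]
  · rw [dif_neg hx, map_zero]

end Pool.Agent.Lib.MP_1aae89_al.BF
end

section
/-!
# Levels of induced characters, and the final form for representations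
-/
set_option autoImplicit false

namespace Pool.Agent.Lib.MP_1aae89_al.BF

open Matrix Finset

open Classical in
/-- the level of `((αβ)^M)^G` (the proof of `InducedLevel`) -/
theorem lev_top {p : ℕ} (hp : p.Prime) {G : Type} [Group G] [Fintype G] (M : Subgroup G)
    (hM : ¬ p ∣ M.index) (W : Subgroup M) (hW : ¬ p ∣ W.index) (α : W → ℂ)
    (β : W →* ℂˣ) (hα : IsCharacter α) {k : ℕ} (hk : α 1 = k) (hpk : ¬ p ∣ k)
    (h1 : lev p α < lev p (fun x => (β x : ℂ))) (h2 : 2 ≤ lev p (fun x => (β x : ℂ))) :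
    lev p (ind W fun x => α x * (β x : ℂ)) = lev p (fun x => (β x : ℂ)) ∧
      lev p (ind M (ind W fun x => α x * (β x : ℂ))) = lev p (fun x => (β x : ℂ)) := by
  have : Fact p.Prime := ⟨hp⟩
  have e1 : lev p (ind W fun x => α x * (β x : ℂ)) = lev p (fun x => (β x : ℂ)) :=
    lev_ind W hW hα hk hpk β h1 h2
  refine ⟨e1, ?_⟩
  set e := W.equivMapOfInjective M.subtype M.subtype_injective with he
  have e2 : ind M (ind W fun x => α x * (β x : ℂ)) =
      ind (W.map M.subtype) fun x => α (e.symm x) * ((β.comp e.symm.toMonoidHom) x : ℂ) :=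
    funext fun g => ind_ind M W _ g
  have hidx : ¬ p ∣ (W.map M.subtype).index := by
    have h3 : (W.map M.subtype).index = W.index * M.index := by
      rw [Subgroup.index_map_of_injective W M.subtype_injective, Subgroup.range_subtype]
    rw [h3, hp.dvd_mul]
    tauto
  have e3 : lev p (fun x => α (e.symm x)) = lev p α := lev_comp p e.symm.toEquiv α
  have e4 : lev p (fun x => ((β.comp e.symm.toMonoidHom) x : ℂ)) =
      lev p (fun x => (β x : ℂ)) := lev_comp p e.symm.toEquiv fun x => (β x : ℂ)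
  have h4 : IsCharacter (fun x => α (e.symm x)) := hα.comp e.symm.toMonoidHom
  have h5 := lev_ind (W.map M.subtype) hidx h4 (k := k) (by rw [map_one, hk]) hpk
    (β.comp e.symm.toMonoidHom) (by rw [e3, e4]; exact h1) (by rw [e4]; exact h2)
  rw [e2, h5, e4]

end Pool.Agent.Lib.MP_1aae89_al.BF
end
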